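import Pool.Agent.Helper850.CF.Num

set_option autoImplicit false
set_option linter.unusedSectionVars false

open Finset

namespace Pool.Agent.Helper850.CF

variable {V : Type} [Fintype V] [DecidableEq V] (G : SimpleGraph V)

/-- An edge lying in a triangle. -/
def Inn (u v : V) : Prop := G.Adj u v ∧ ∃ w, G.Adj u w ∧ G.Adj v w

/-- An edge lying in no triangle. -/
def Out (u v : V) : Prop := G.Adj u v ∧ ∀ w, ¬ (G.Adj u w ∧ G.Adj v w)

/-- Closed under inner adjacency. -/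
def Cl (X : Finset V) : Prop := ∀ u ∈ X, ∀ v, Inn G u v → v ∈ X

open Classical in
/-- Boundary vertices. -/
noncomputable def Bd (X : Finset V) : Finset V := X.filter fun v => ∃ u, u ∉ X ∧ G.Adj v u

/-- Adjacency-closed inside `X`. -/
def AC (X A : Finset V) : Prop := ∀ u ∈ A, ∀ v ∈ X, G.Adj u v → v ∈ A

/-- Connected. -/
def Cn (X : Finset V) : Prop := ∀ A ⊆ X, A.Nonempty → AC G X A → A = X

/-- `S` solves the piece `X` with port states `τ`. -/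
structure Sol (X : Finset V) (τ : V → Fin 4) (S : Finset V) : Prop where
  sub : S ⊆ X
  inn : ∀ v ∈ X, v ∉ Bd G X → ∃ u ∈ S, G.Adj v u
  mem : ∀ v ∈ Bd G X, mb (τ v) = true → v ∈ S
  dom : ∀ v ∈ Bd G X, dm (τ v) = true → ∃ u ∈ S, G.Adj v u

/-- Cost of a solution with caps outside `O`. -/
noncomputable def cst (X O : Finset V) (κ : V → Fin 6) (τ : V → Fin 4) (S : Finset V) : ℤ :=
  12 * (S.card : ℤ) - 5 * (X.card : ℤ) + ∑ v ∈ Bd G X \ O, Gd (κ v) (τ v)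

/-- The claim for the piece `X`. -/
def P (X : Finset V) : Prop :=
  Cl G X → Cn G X → ∀ p ∈ Bd G X, ∀ κ : V → Fin 6, ∃ j : Fin 6, ∀ s : Fin 4,
    ∃ (τ : V → Fin 4) (S : Finset V), Sol G X τ S ∧ τ p = s ∧ cst G X {p} κ τ S ≤ W j s

variable {G}

lemma mem_Bd {X : Finset V} {v : V} : v ∈ Bd G X ↔ v ∈ X ∧ ∃ u, u ∉ X ∧ G.Adj v u := by
  classical
  unfold Bd
  rw [Finset.mem_filter]

lemma Bd_sub {X : Finset V} : Bd G X ⊆ X := fun _ h => (mem_Bd.1 h).1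

lemma Inn.symm {u v : V} (h : Inn G u v) : Inn G v u := by
  obtain ⟨h, w, h1, h2⟩ := h
  exact ⟨h.symm, w, h2, h1⟩

lemma Out.symm {u v : V} (h : Out G u v) : Out G v u := ⟨h.1.symm, fun w hw => h.2 w ⟨hw.2, hw.1⟩⟩

lemma Out.adj {u v : V} (h : Out G u v) : G.Adj u v := h.1

lemma out_of_cross {X : Finset V} (hX : Cl G X) {u v : V} (hu : u ∈ X) (hv : v ∉ X)
    (h : G.Adj u v) : Out G u v :=
  ⟨h, fun w hw => hv (hX u hu v ⟨h, w, hw.1, hw.2⟩)⟩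

/-- Claw-free. -/
def Clf (G : SimpleGraph V) : Prop := ∀ v a b c : V, G.Adj v a → G.Adj v b → G.Adj v c →
  a ≠ b → a ≠ c → b ≠ c → G.Adj a b ∨ G.Adj a c ∨ G.Adj b c

/-- Cubic. -/
def Cub (G : SimpleGraph V) : Prop := ∀ v, ∃ a b c, a ≠ b ∧ a ≠ c ∧ b ≠ c ∧
  ∀ u, G.Adj v u ↔ u = a ∨ u = b ∨ u = c

/-- Cubic, with one neighbour given. -/
lemma Cub.two {G : SimpleGraph V} (h : Cub G) {v a : V} (ha : G.Adj v a) :
    ∃ b c, a ≠ b ∧ a ≠ c ∧ b ≠ c ∧ ∀ u, G.Adj v u ↔ u = a ∨ u = b ∨ u = c := by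
  obtain ⟨x, y, z, h1, h2, h3, h4⟩ := h v
  rcases (h4 a).1 ha with rfl | rfl | rfl
  · exact ⟨y, z, h1, h2, h3, h4⟩
  · exact ⟨x, z, h1.symm, h3, h2, fun u => by rw [h4]; tauto⟩
  · exact ⟨x, y, h2.symm, h3.symm, h1, fun u => by rw [h4]; tauto⟩

/-- Cubic, with two neighbours given. -/
lemma Cub.one {G : SimpleGraph V} (h : Cub G) {v a b : V} (ha : G.Adj v a) (hb : G.Adj v b)
    (hab : a ≠ b) : ∃ c, a ≠ c ∧ b ≠ c ∧ ∀ u, G.Adj v u ↔ u = a ∨ u = b ∨ u = c := by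
  obtain ⟨y, z, h1, h2, h3, h4⟩ := h.two ha
  rcases (h4 b).1 hb with rfl | rfl | rfl
  · exact absurd rfl hab
  · exact ⟨z, h2, h3, h4⟩
  · exact ⟨y, h1, h3.symm, fun u => by rw [h4]; tauto⟩

lemma out_unique {G : SimpleGraph V} (hc : Cub G) (hf : Clf G) {q x y : V} (hx : Out G q x)
    (hy : Out G q y) : x = y := by
  by_contra hne
  obtain ⟨c, h1, h2, h3⟩ := hc.one hx.1 hy.1 hne
  have hcq : G.Adj q c := (h3 c).2 (Or.inr (Or.inr rfl))
  rcases hf q x y c hx.1 hy.1 hcq hne h1 h2 with h | h | h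
  · exact hx.2 y ⟨hy.1, h⟩
  · exact hx.2 c ⟨hcq, h⟩
  · exact hy.2 c ⟨hcq, h⟩

/-- Triangle unit at `p` with outer neighbours `p', x1, x2`. -/
structure TU (G : SimpleGraph V) (p p' q1 q2 x1 x2 : V) : Prop where
  ap : ∀ u, G.Adj p u ↔ u = p' ∨ u = q1 ∨ u = q2
  a1 : ∀ u, G.Adj q1 u ↔ u = p ∨ u = q2 ∨ u = x1
  a2 : ∀ u, G.Adj q2 u ↔ u = p ∨ u = q1 ∨ u = x2
  np1 : p ≠ q1
  np2 : p ≠ q2
  n12 : q1 ≠ q2
  op : Out G p p'
  o1 : Out G q1 x1
  o2 : Out G q2 x2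

/-- Diamond unit at `p` with outer neighbours `p', w'`. -/
structure DU (G : SimpleGraph V) (p p' y z w w' : V) : Prop where
  ap : ∀ u, G.Adj p u ↔ u = p' ∨ u = y ∨ u = z
  ay : ∀ u, G.Adj y u ↔ u = p ∨ u = z ∨ u = w
  az : ∀ u, G.Adj z u ↔ u = p ∨ u = y ∨ u = w
  aw : ∀ u, G.Adj w u ↔ u = y ∨ u = z ∨ u = w'
  npy : p ≠ y
  npz : p ≠ z
  npw : p ≠ w
  nyz : y ≠ z
  nyw : y ≠ w
  nzw : z ≠ w
  op : Out G p p'
  ow : Out G w w'

lemma unit_structure {G : SimpleGraph V} (hc : Cub G) (hf : Clf G) {p p' : V} (h : Out G p p') :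
    (∃ q1 q2 x1 x2, TU G p p' q1 q2 x1 x2) ∨ (∃ y z w w', DU G p p' y z w w') := by
  obtain ⟨q1, q2, h1, h2, h3, h4⟩ := hc.two h.1
  have e1 : G.Adj p q1 := (h4 q1).2 (by tauto)
  have e2 : G.Adj p q2 := (h4 q2).2 (by tauto)
  have e12 : G.Adj q1 q2 := by
    rcases hf p p' q1 q2 h.1 e1 e2 h1 h2 h3 with h' | h' | h'
    · exact absurd ⟨e1, h'⟩ (h.2 q1)
    · exact absurd ⟨e2, h'⟩ (h.2 q2)
    · exact h'
  obtain ⟨x1, a1, a2, a3⟩ := hc.one e1.symm e12 e2.ne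
  obtain ⟨x2, b1, b2, b3⟩ := hc.one e2.symm e12.symm e1.ne
  have f1 : G.Adj q1 x1 := (a3 x1).2 (by tauto)
  have f2 : G.Adj q2 x2 := (b3 x2).2 (by tauto)
  have hp'1 : ¬ G.Adj q1 p' := fun hh => h.2 q1 ⟨e1, hh.symm⟩
  have hp'2 : ¬ G.Adj q2 p' := fun hh => h.2 q2 ⟨e2, hh.symm⟩
  have hpx1 : ¬ G.Adj p x1 := by
    intro hh
    rcases (h4 x1).1 hh with h' | h' | h'
    · exact hp'1 (h' ▸ f1)
    · exact f1.ne h'.symm
    · exact a2 h'.symm
  have hpx2 : ¬ G.Adj p x2 := by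
    intro hh
    rcases (h4 x2).1 hh with h' | h' | h'
    · exact hp'2 (h' ▸ f2)
    · exact b2 h'.symm
    · exact f2.ne h'.symm
  by_cases hx : G.Adj q2 x1
  · -- diamond
    right
    have hxx : x1 = x2 := by
      rcases (b3 x1).1 hx with h' | h' | h'
      · exact absurd h'.symm a1
      · exact absurd h' f1.ne.symm
      · exact h'
    obtain ⟨w', c1, c2, c3⟩ := hc.one f1.symm hx.symm e12.ne
    refine ⟨q1, q2, x1, w', ⟨h4, ?_, ?_, c3, e1.ne, e2.ne, a1, e12.ne, f1.ne, hx.ne, h, ?_⟩⟩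
    · intro u; rw [a3]
    · intro u; rw [b3, hxx]
    · refine ⟨(c3 w').2 (by tauto), ?_⟩
      rintro u ⟨hu1, hu2⟩
      rcases (c3 u).1 hu1 with h' | h' | h'
      · subst h'
        rcases (a3 w').1 hu2.symm with h' | h' | h'
        · exact hpx1 (h' ▸ ((c3 w').2 (by tauto)).symm)
        · exact c2 h'.symm
        · exact ((c3 w').2 (by tauto)).ne h'.symm
      · subst h'
        rcases (b3 w').1 hu2.symm with h' | h' | h'
        · exact hpx1 (h' ▸ ((c3 w').2 (by tauto)).symm)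
        · exact c1 h'.symm
        · exact ((c3 w').2 (by tauto)).ne (hxx.trans h'.symm)
      · exact hu2.ne h'.symm
  · left
    have hx' : ¬ G.Adj q1 x2 := by
      intro hh
      rcases (a3 x2).1 hh with h' | h' | h'
      · exact b1 h'.symm
      · exact f2.ne h'.symm
      · exact hx (h' ▸ f2)
    refine ⟨q1, q2, x1, x2, ⟨h4, a3, b3, e1.ne, e2.ne, e12.ne, h, ⟨f1, ?_⟩, ⟨f2, ?_⟩⟩⟩
    · rintro u ⟨hu1, hu2⟩
      rcases (a3 u).1 hu1 with h' | h' | h'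
      · subst h'; exact hpx1 hu2.symm
      · subst h'; exact hx hu2.symm
      · exact hu2.ne h'.symm
    · rintro u ⟨hu1, hu2⟩
      rcases (b3 u).1 hu1 with h' | h' | h'
      · subst h'; exact hpx2 hu2.symm
      · subst h'; exact hx' hu2.symm
      · exact hu2.ne h'.symm

end Pool.Agent.Helper850.CF
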