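import Pool.Agent.Helper850.CF.Glue

set_option autoImplicit false
set_option linter.unusedSectionVars false

open Finset

namespace Pool.Agent.Helper850.CF

variable {V : Type} [Fintype V] [DecidableEq V] {G : SimpleGraph V}

lemma meet {X R A : Finset V} (hc : Cn G X) (hR : R ⊆ X) (hRn : R.Nonempty) (hA : A ⊆ X \ R)
    (hAn : A.Nonempty) (hAC : AC G (X \ R) A) : ∃ a ∈ A, ∃ r ∈ R, G.Adj a r := by
  by_contra hcon
  push Not at hcon
  have hAX : A = X := by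
    refine hc A (hA.trans Finset.sdiff_subset) hAn fun u hu v hv huv => ?_
    refine hAC u hu v (Finset.mem_sdiff.2 ⟨hv, fun hvR => hcon u hu v hvR huv⟩) huv
  obtain ⟨r, hr⟩ := hRn
  exact (Finset.mem_sdiff.1 (hA (hAX ▸ hR hr))).2 hr

lemma AC.compl {X A : Finset V} (h : AC G X A) : AC G X (X \ A) := by
  intro u hu v hv huv
  refine Finset.mem_sdiff.2 ⟨hv, fun hvA => ?_⟩
  exact (Finset.mem_sdiff.1 hu).2 (h v hvA u (Finset.mem_sdiff.1 hu).1 huv.symm)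

lemma AC.trans {X A C : Finset V} (h : AC G X A) (h' : AC G A C) (hCA : C ⊆ A) : AC G X C :=
  fun u hu v hv huv => h' u hu v (h u (hCA hu) v hv huv) huv

lemma Cn_of_single {X R A : Finset V} (hc : Cn G X) (hR : R ⊆ X) (hRn : R.Nonempty)
    (hA : A ⊆ X \ R) (hAC : AC G (X \ R) A) (a0 : V) (h : ∀ a ∈ A, ∀ r ∈ R, G.Adj a r → a = a0) :
    Cn G A := by
  intro C hCA hCn hC
  by_contra hne
  have hn : (A \ C).Nonempty := by
    rw [Finset.nonempty_iff_ne_empty]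
    intro he
    exact hne (Finset.Subset.antisymm hCA (Finset.sdiff_eq_empty_iff_subset.1 he))
  obtain ⟨a, ha, r, hr, har⟩ := meet hc hR hRn (hCA.trans hA) hCn (hAC.trans hC hCA)
  obtain ⟨b, hb, r', hr', hbr⟩ := meet hc hR hRn (Finset.sdiff_subset.trans hA) hn
    (hAC.trans hC.compl Finset.sdiff_subset)
  have e1 := h a (hCA ha) r hr har
  have e2 := h b (Finset.mem_sdiff.1 hb).1 r' hr' hbr
  exact (Finset.mem_sdiff.1 hb).2 (e2.trans e1.symm ▸ ha)

lemma Cl_sdiff {X B : Finset V} (hX : Cl G X) (hB : Cl G B) : Cl G (X \ B) := by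
  intro u hu v huv
  obtain ⟨h1, h2⟩ := Finset.mem_sdiff.1 hu
  exact Finset.mem_sdiff.2 ⟨hX u h1 v huv, fun hv => h2 (hB v hv u huv.symm)⟩

lemma Cl_of_AC {X A : Finset V} (hX : Cl G X) (hA : AC G X A) (hAX : A ⊆ X) : Cl G A :=
  fun u hu v huv => hA u hu v (hX u (hAX hu) v huv) huv.1

/-- A state and its switch are compatible. -/
lemma compat (s : Fin 4) : (dm s = true ∨ mb (sw s) = true) ∧ (dm (sw s) = true ∨ mb s = true) := by
  revert s; decide

lemma compat' (s : Fin 4) : (dm (sw s) = true ∨ mb s = true) ∧ (dm s = true ∨ mb (sw s) = true) := by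
  revert s; decide

lemma not_Bd_of_out (hc : Cub G) (hf : Clf G) {X : Finset V} (hX : Cl G X) {q x : V} (hq : q ∈ X)
    (hx : x ∈ X) (h : Out G q x) : q ∉ Bd G X := by
  intro hb
  obtain ⟨_, u, hu, hqu⟩ := mem_Bd.1 hb
  have := out_unique hc hf h (out_of_cross hX hq hu hqu)
  exact hu (this ▸ hx)

lemma bridge (hc : Cub G) (hf : Clf G) {X B : Finset V}
    (ih : ∀ Y : Finset V, Y.card < X.card → P G Y) (hX : Cl G X) (hcn : Cn G X) {p : V}
    (hp : p ∈ Bd G X) (κ : V → Fin 6) (hBX : B ⊆ X) (hB : Cl G B) (hpB : p ∉ B) {q x : V}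
    (hq : q ∈ X) (hqB : q ∉ B) (hx : x ∈ B) (hqx : G.Adj q x)
    (hu : ∀ a ∈ X, a ∉ B → ∀ b ∈ B, G.Adj a b → a = q ∧ b = x) :
    ∃ j : Fin 6, ∀ s : Fin 4, ∃ (τ : V → Fin 4) (S : Finset V),
      Sol G X τ S ∧ τ p = s ∧ cst G X {p} κ τ S ≤ W j s := by
  have hAcl : Cl G (X \ B) := Cl_sdiff hX hB
  have hqA : q ∈ X \ B := Finset.mem_sdiff.2 ⟨hq, hqB⟩
  have hxA : x ∉ X \ B := fun h => (Finset.mem_sdiff.1 h).2 hx
  have hxX : x ∈ X := hBX hx
  have hXB : X \ (X \ B) = B := Finset.sdiff_sdiff_eq_self hBX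
  have hAcn : Cn G (X \ B) := by
    refine Cn_of_single hcn hBX ⟨x, hx⟩ (Finset.Subset.refl _) (fun u _ v hv _ => hv) q ?_
    intro a ha r hr har
    exact (hu a (Finset.mem_sdiff.1 ha).1 (Finset.mem_sdiff.1 ha).2 r hr har).1
  have hBcn : Cn G B := by
    refine Cn_of_single (R := X \ B) hcn Finset.sdiff_subset ⟨q, hqA⟩ (by rw [hXB])
      (by rw [hXB]; exact fun u _ v hv _ => hv) x ?_
    intro b hb r hr hbr
    exact (hu r (Finset.mem_sdiff.1 hr).1 (Finset.mem_sdiff.1 hr).2 b hb hbr.symm).2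
  have cA : (X \ B).card < X.card :=
    Finset.card_lt_card ⟨Finset.sdiff_subset, fun h => hxA (h hxX)⟩
  have cB : B.card < X.card := Finset.card_lt_card ⟨hBX, fun h => hqB (h hq)⟩
  have hout : Out G q x := out_of_cross hAcl hqA hxA hqx
  obtain ⟨hpX, p', hp', hpp'⟩ := mem_Bd.1 hp
  have hqp : q ≠ p := by
    rintro rfl
    exact hp' ((out_unique hc hf hout (out_of_cross hX hpX hp' hpp')) ▸ hxX)
  have hqBd : q ∉ Bd G X := not_Bd_of_out hc hf hX hq hxX hout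
  have hxBd : x ∉ Bd G X := not_Bd_of_out hc hf hX hxX hq hout.symm
  have hpA : p ∈ Bd G (X \ B) :=
    mem_Bd.2 ⟨Finset.mem_sdiff.2 ⟨hpX, hpB⟩, p', fun h => hp' (Finset.mem_sdiff.1 h).1, hpp'⟩
  have hqA' : q ∈ Bd G (X \ B) := mem_Bd.2 ⟨hqA, x, hxA, hqx⟩
  have hxB' : x ∈ Bd G B := mem_Bd.2 ⟨hx, q, hqB, hqx.symm⟩
  obtain ⟨j, hj⟩ := ih B cB hB hBcn x hxB' κ
  obtain ⟨l, hl⟩ := ih (X \ B) cA hAcl hAcn p hpA (Function.update κ q j)
  refine ⟨l, fun s => ?_⟩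
  obtain ⟨τA, SA, hA1, hA2, hA3⟩ := hl s
  obtain ⟨τB, SB, hB1, hB2, hB3⟩ := hj (sw (τA q))
  have hd : Disjoint (X \ B) B := Finset.sdiff_disjoint
  have hAB : X \ B ∪ B = X := Finset.sdiff_union_of_subset hBX
  have hsol := glue hd hA1 hB1 (by
    intro a ha b hb hab
    obtain ⟨rfl, rfl⟩ := hu a (Finset.mem_sdiff.1 ha).1 (Finset.mem_sdiff.1 ha).2 b hb hab
    rw [hB2]
    exact compat _)
  have hcst := cst_glue (G := G) (O := {p, q, x}) (κ := κ) (τA := τA) (τB := τB) hd hA1.sub hB1.sub (by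
    intro a ha b hb hab
    obtain ⟨rfl, rfl⟩ := hu a (Finset.mem_sdiff.1 ha).1 (Finset.mem_sdiff.1 ha).2 b hb hab
    simp)
  rw [hAB] at hsol hcst
  refine ⟨_, _, hsol, ?_, ?_⟩
  · rw [mix_left (Finset.mem_sdiff.2 ⟨hpX, hpB⟩), hA2]
  · have e1 : cst G X {p} κ (mix (X \ B) τA τB) (SA ∪ SB) =
        cst G X {p, q, x} κ (mix (X \ B) τA τB) (SA ∪ SB) := by
      refine cst_congr_O fun v hv => ?_
      have h1 : v ≠ q := fun h => hqBd (h ▸ hv)
      have h2 : v ≠ x := fun h => hxBd (h ▸ hv)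
      simp [h1, h2]
    have e2 : cst G (X \ B) {p, q, x} κ τA SA = cst G (X \ B) (insert q {p}) κ τA SA := by
      refine cst_congr_O fun v hv => ?_
      have h2 : v ≠ x := fun h => hxA (h ▸ Bd_sub hv)
      simp [h2, or_comm]
    have e3 : cst G B {p, q, x} κ τB SB = cst G B {x} κ τB SB := by
      refine cst_congr_O fun v hv => ?_
      have h1 : v ≠ q := fun h => hqB (h ▸ Bd_sub hv)
      have h2 : v ≠ p := fun h => hpB (h ▸ Bd_sub hv)
      simp [h1, h2]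
    have e4 := cst_upd (G := G) (O := {p}) (S := SA) (κ := κ) (τ := τA) j hqA' (by simpa using hqp)
    rw [e1, hcst, e2, e3]
    unfold Gd at e4
    rw [e4] at hA3
    linarith

end Pool.Agent.Helper850.CF
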