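import Pool.Agent.Helper850.CF.Two

set_option autoImplicit false
set_option linter.unusedSectionVars false

open Finset

namespace Pool.Agent.Helper850.CF

variable {V : Type} [Fintype V] [DecidableEq V] {G : SimpleGraph V}

lemma mx_le {f : Fin 4 → ℤ} {c : ℤ} (h : ∀ s, f s ≤ c) : mx f ≤ c :=
  max_le (max_le (h 0) (h 1)) (max_le (h 2) (h 3))



namespace Ctx

variable {X : Finset V} {p p' q1 q2 x1 x2 : V} (c : Ctx G X p p' q1 q2 x1 x2)

include c

lemma failD (κ : V → Fin 6) (hcn' : Cn G (X \ c.h.R)) (hcon : ¬ Concl G X p κ) {e : Fin 2}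
    (hres : ∀ τ' S', (cst G (X \ c.h.R) {x1, x2} κ τ' S' + ((e : ℕ) : ℤ)) % 12 = 0)
    (hN : ∀ τ' S', Sol G (X \ c.h.R) τ' S' →
        LM (τ' x1) (τ' x2) ≤ cst G (X \ c.h.R) {x1, x2} κ τ' S')
    {y z w w' : V} (k : DU G x1 q1 y z w w') : False := by
  have hY : k.R ⊆ X \ c.h.R := k.sub c.Cl' c.x1m
  have x1Y : x1 ∈ k.R := k.mem_R.2 (Or.inl rfl)
  have wY : w ∈ k.R := k.mem_R.2 (Or.inr (Or.inr (Or.inr rfl)))
  have q2Y : q2 ∉ k.R := fun h => c.q2n (hY h)
  have hx2w : x2 ∈ k.R → x2 = w := by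
    intro hh
    rcases k.cross hh q2Y c.h.o2.1.symm with ⟨h1, _⟩ | ⟨h1, _⟩
    · exact absurd h1.symm c.x12
    · exact h1
  have nwx : w ≠ x1 := k.npw.symm
  by_cases hw : x2 = w
  · subst hw
    have hw'q : w' = q2 := out_unique c.hc c.hf k.ow c.h.o2.symm
    have hXY : k.R = X \ c.h.R := by
      refine hcn' _ hY ⟨x1, x1Y⟩ fun u hu v hv huv => ?_
      by_contra hvR
      rcases k.cross hu hvR huv with ⟨_, h2⟩ | ⟨_, h2⟩
      · exact absurd h2 (ne_of_mem_of_not_mem hv c.q1n)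
      · rw [hw'q] at h2
        exact absurd h2 (ne_of_mem_of_not_mem hv c.q2n)
    obtain ⟨u, hu⟩ := c.low κ hcon 0
    obtain ⟨s, t, hst⟩ := c4D u
    obtain ⟨S, hS1, hS2⟩ := k.sol (fun v => if v = x1 then s else t)
    have hlow := hu (fun v => if v = x1 then s else t) S (by rw [← hXY]; exact hS1)
    rw [cst_full, ← hXY, hS2] at hlow
    · simp only [if_pos, if_neg nwx] at hlow
      linarith
    · rw [← hXY]
      intro v hv
      rcases k.Bd_R.1 hv with h3 | h3 <;> simp [h3]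
  · have hx2Y : x2 ∉ k.R := fun h => hw (hx2w h)
    have hx2'' : x2 ∈ (X \ c.h.R) \ k.R := Finset.mem_sdiff.2 ⟨c.x2m, hx2Y⟩
    have hw'm : w' ∈ (X \ c.h.R) \ k.R := by
      obtain ⟨a, ha, r, hr, har⟩ := meet hcn' hY ⟨x1, x1Y⟩ (Finset.Subset.refl _) ⟨x2, hx2''⟩
        (fun u _ v hv _ => hv)
      rcases k.cross hr (Finset.mem_sdiff.1 ha).2 har.symm with ⟨_, h2⟩ | ⟨_, h2⟩
      · exact absurd h2 (ne_of_mem_of_not_mem (Finset.mem_sdiff.1 ha).1 c.q1n)
      · rw [h2] at ha; exact ha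
    have hcn'' : Cn G ((X \ c.h.R) \ k.R) := by
      refine Cn_of_single hcn' hY ⟨x1, x1Y⟩ (Finset.Subset.refl _) (fun u _ v hv _ => hv) w' ?_
      intro a ha r hr har
      rcases k.cross hr (Finset.mem_sdiff.1 ha).2 har.symm with ⟨_, h2⟩ | ⟨_, h2⟩
      · exact absurd h2 (ne_of_mem_of_not_mem (Finset.mem_sdiff.1 ha).1 c.q1n)
      · exact h2
    have hcard : ((X \ c.h.R) \ k.R).card < X.card :=
      (Finset.card_le_card Finset.sdiff_subset).trans_lt c.card'
    have hcl : Cl G ((X \ c.h.R) \ k.R) := Cl_sdiff c.Cl' k.Cl_R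
    have hwX'' : w ∉ (X \ c.h.R) \ k.R := fun h => (Finset.mem_sdiff.1 h).2 wY
    have hx1X'' : x1 ∉ (X \ c.h.R) \ k.R := fun h => (Finset.mem_sdiff.1 h).2 x1Y
    have hw'B : w' ∈ Bd G ((X \ c.h.R) \ k.R) := mem_Bd.2 ⟨hw'm, w, hwX'', k.ow.1.symm⟩
    have hx2B : x2 ∈ Bd G ((X \ c.h.R) \ k.R) :=
      mem_Bd.2 ⟨hx2'', q2, fun h => c.q2n (Finset.mem_sdiff.1 h).1, c.h.o2.1.symm⟩
    have nx2w' : x2 ≠ w' := by
      intro hh
      have h3 := k.ow.symm
      rw [← hh] at h3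
      have := out_unique c.hc c.hf h3 c.h.o2.symm
      exact absurd this (ne_of_mem_of_not_mem (hY wY) c.q2n)
    obtain ⟨j, hj⟩ := c.ih _ hcard hcl hcn'' w' hw'B (Function.update κ x2 0)
    obtain ⟨a, ha⟩ := c5 e j
    obtain ⟨τ'', S'', g1, g2, g3⟩ := hj a
    rw [cst_upd 0 hx2B (by simpa using nx2w')] at g3
    have claim : ∀ s : Fin 4, LM s (τ'' x2) ≤
        D s (sw a) + cst G ((X \ c.h.R) \ k.R) (insert x2 {w'}) κ τ'' S'' ∧
        (D s (sw a) + cst G ((X \ c.h.R) \ k.R) (insert x2 {w'}) κ τ'' S'' + ((e : ℕ) : ℤ)) % 12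
          = 0 := by
      intro s
      obtain ⟨SY, hSY, hSY2⟩ := k.sol (fun v => if v = x1 then s else sw a)
      simp only [if_pos, if_neg nwx] at hSY2
      have hd : Disjoint k.R ((X \ c.h.R) \ k.R) := Finset.disjoint_sdiff
      have hun : k.R ∪ ((X \ c.h.R) \ k.R) = X \ c.h.R := Finset.union_sdiff_of_subset hY
      have hsol := glue hd hSY g1 (by
        intro a' ha' b hb hab
        obtain ⟨hbX, hbR⟩ := Finset.mem_sdiff.1 hb
        rcases k.cross ha' hbR hab with ⟨_, h3⟩ | ⟨h3, h4⟩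
        · exact absurd h3 (ne_of_mem_of_not_mem hbX c.q1n)
        · simp only [h3, h4, if_neg nwx]
          rw [g2]
          exact compat' _)
      have hcst := cst_glue (G := G) (O := {x1, w, x2, w'}) (κ := κ)
        (τA := fun v => if v = x1 then s else sw a) (τB := τ'') hd hSY.sub g1.sub (by
        intro a' ha' b hb hab
        obtain ⟨hbX, hbR⟩ := Finset.mem_sdiff.1 hb
        rcases k.cross ha' hbR hab with ⟨_, h3⟩ | ⟨h3, h4⟩
        · exact absurd h3 (ne_of_mem_of_not_mem hbX c.q1n)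
        · simp [h3, h4])
      rw [hun] at hsol hcst
      have e1 : ∀ τ S, cst G (X \ c.h.R) {x1, x2} κ τ S = cst G (X \ c.h.R) {x1, w, x2, w'} κ τ S := by
        intro τ S
        refine cst_congr_O fun v hv => ?_
        have m1 : v ≠ w := ne_of_mem_of_not_mem hv (not_Bd_of_out c.hc c.hf c.Cl' (hY wY)
          (Finset.mem_sdiff.1 hw'm).1 k.ow)
        have m2 : v ≠ w' := ne_of_mem_of_not_mem hv (not_Bd_of_out c.hc c.hf c.Cl'
          (Finset.mem_sdiff.1 hw'm).1 (hY wY) k.ow.symm)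
        simp [m1, m2]
      have e2 : cst G ((X \ c.h.R) \ k.R) {x1, w, x2, w'} κ τ'' S'' =
          cst G ((X \ c.h.R) \ k.R) (insert x2 {w'}) κ τ'' S'' := by
        refine cst_congr_O fun v hv => ?_
        have m1 : v ≠ x1 := ne_of_mem_of_not_mem (Bd_sub hv) hx1X''
        have m2 : v ≠ w := ne_of_mem_of_not_mem (Bd_sub hv) hwX''
        simp [m1, m2]
      have e3 : ∀ τ, cst G k.R {x1, w, x2, w'} κ τ SY =
          12 * (SY.card : ℤ) - 5 * (k.R.card : ℤ) := by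
        intro τ
        refine cst_full fun v hv => ?_
        rcases k.Bd_R.1 hv with h3 | h3 <;> simp [h3]
      rw [e3, hSY2, e2] at hcst
      have r1 := hN _ _ hsol
      have r2 := hres (mix k.R (fun v => if v = x1 then s else sw a) τ'') (SY ∪ S'')
      rw [e1, hcst] at r1 r2
      rw [mix_left x1Y, mix_right hx2Y] at r1
      simp only [if_pos] at r1
      exact ⟨r1, r2⟩
    have h1 : mx (fun s => LM s (τ'' x2) - D s (sw a)) ≤
        cst G ((X \ c.h.R) \ k.R) (insert x2 {w'}) κ τ'' S'' :=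
      mx_le fun s => by
        have := (claim s).1
        linarith
    have h2 : (cst G ((X \ c.h.R) \ k.R) (insert x2 {w'}) κ τ'' S'' - (20 - ((e : ℕ) : ℤ))) % 12
        = 0 := by
      have := (claim 0).2
      unfold D at this
      omega
    have h3 := le_of_ru h1 h2
    have h4 := ha (τ'' x2)
    linarith

end Ctx

end Pool.Agent.Helper850.CF
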