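import Pool.Agent.Helper850.CF.FailD

set_option autoImplicit false
set_option linter.unusedSectionVars false

open Finset

namespace Pool.Agent.Helper850.CF

variable {V : Type} [Fintype V] [DecidableEq V] {G : SimpleGraph V}

lemma T_rot : ∀ x y z, T x y z = T z x y := by decide +kernel

namespace Ctx

variable {X : Finset V} {p p' q1 q2 x1 x2 : V} (c : Ctx G X p p' q1 q2 x1 x2)

include c

lemma tY {u1 u2 v1 v2 : V} (k : TU G x1 q1 u1 u2 v1 v2) : k.R ⊆ X \ c.h.R := k.sub c.Cl' c.x1m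

/-- The second link goes to the same unit as the first one. -/
lemma failT_same (κ : V → Fin 6) (hcn' : Cn G (X \ c.h.R)) (hcon : ¬ Concl G X p κ)
    {u1 u2 v1 v2 : V} (k : TU G x1 q1 u1 u2 v1 v2) (hx2 : x2 = u1) : False := by
  have hY : k.R ⊆ X \ c.h.R := c.tY k
  have x1Y : x1 ∈ k.R := k.mem_R.2 (Or.inl rfl)
  have u1Y : u1 ∈ k.R := k.mem_R.2 (Or.inr (Or.inl rfl))
  have u2Y : u2 ∈ k.R := k.mem_R.2 (Or.inr (Or.inr rfl))
  have x2Y : x2 ∈ k.R := by rw [hx2]; exact u1Y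
  have hv1 : v1 = q2 := by
    have h3 := c.h.o2.symm
    rw [hx2] at h3
    exact out_unique c.hc c.hf k.o1 h3
  have n1 : u1 ≠ x1 := k.np1.symm
  have n2 : u2 ≠ x1 := k.np2.symm
  have n3 : u2 ≠ u1 := k.n12.symm
  by_cases hv2 : v2 ∈ X \ c.h.R
  · refine hcon (bridge c.hc c.hf c.ih c.hX c.hcn c.hp κ (B := (X \ c.h.R) \ k.R)
      (Finset.sdiff_subset.trans Finset.sdiff_subset) (Cl_sdiff c.Cl' k.Cl_R)
      (fun hh => c.pn (Finset.mem_sdiff.1 hh).1) (q := u2) (x := v2)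
      (Finset.mem_sdiff.1 (hY u2Y)).1 (fun hh => (Finset.mem_sdiff.1 hh).2 u2Y)
      (Finset.mem_sdiff.2 ⟨hv2, k.x2_notin⟩) k.o2.1 ?_)
    intro a ha haB b hb hab
    obtain ⟨hb1, hbY⟩ := Finset.mem_sdiff.1 hb
    obtain ⟨hbX, hbR⟩ := Finset.mem_sdiff.1 hb1
    by_cases haR : a ∈ c.h.R
    · exfalso
      rcases c.h.cross haR hbR hab with ⟨_, h3⟩ | ⟨_, h3⟩ | ⟨_, h3⟩
      · exact c.hp' (h3 ▸ hbX)
      · rw [h3] at hbY; exact hbY x1Y
      · rw [h3] at hbY; exact hbY x2Y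
    · have haY : a ∈ k.R := by
        by_contra hh
        exact haB (Finset.mem_sdiff.2 ⟨Finset.mem_sdiff.2 ⟨ha, haR⟩, hh⟩)
      rcases k.cross haY hbY hab with ⟨_, h3⟩ | ⟨_, h3⟩ | h3
      · exact absurd h3 (ne_of_mem_of_not_mem hb1 c.q1n)
      · exact absurd (h3.trans hv1) (ne_of_mem_of_not_mem hb1 c.q2n)
      · exact h3
  · have hXY : k.R = X \ c.h.R := by
      refine hcn' _ hY ⟨x1, x1Y⟩ fun u hu v hv huv => ?_
      by_contra hvR
      rcases k.cross hu hvR huv with ⟨_, h2⟩ | ⟨_, h2⟩ | ⟨_, h2⟩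
      · exact absurd h2 (ne_of_mem_of_not_mem hv c.q1n)
      · exact absurd (h2.trans hv1) (ne_of_mem_of_not_mem hv c.q2n)
      · exact absurd h2 (ne_of_mem_of_not_mem hv hv2)
    obtain ⟨l, hl⟩ := c4T (κ u2)
    obtain ⟨u, hu⟩ := c.low κ hcon l
    obtain ⟨s, t, v, hst⟩ := hl u
    obtain ⟨S, hS1, hS2⟩ := k.sol (fun a => if a = x1 then s else if a = u1 then t else v)
    have hlow := hu _ S (by rw [← hXY]; exact hS1)
    simp only [if_pos, if_neg n1, if_neg n2, if_neg n3] at hS2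
    rw [T_rot] at hS2
    have hu2B : u2 ∈ Bd G (X \ c.h.R) := by rw [← hXY, k.Bd_R]; exact u2Y
    have hu2O : u2 ∉ ({x1, x2} : Finset V) := by rw [hx2]; simp [n2, n3]
    rw [cst_insert hu2B hu2O, cst_full, ← hXY, hS2] at hlow
    · rw [hx2] at hlow
      simp only [if_pos, if_neg n1, if_neg n2, if_neg n3] at hlow
      linarith
    · intro a ha
      rw [← hXY, k.Bd_R] at ha
      rw [hx2]
      rcases k.mem_R.1 ha with h3 | h3 | h3 <;> simp [h3]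

/-- A part of the rest attached through one link only. -/
lemma failT_disc (κ : V → Fin 6) (hcon : ¬ Concl G X p κ)
    {u1 u2 v1 v2 : V} (k : TU G x1 q1 u1 u2 v1 v2) {C : Finset V}
    (hC : C ⊆ (X \ c.h.R) \ k.R) (hAC : AC G ((X \ c.h.R) \ k.R) C) (hx2 : x2 ∉ C)
    (h1 : v1 ∈ C) (h2 : v2 ∉ C) : False := by
  have hY : k.R ⊆ X \ c.h.R := c.tY k
  have x1Y : x1 ∈ k.R := k.mem_R.2 (Or.inl rfl)
  have u1Y : u1 ∈ k.R := k.mem_R.2 (Or.inr (Or.inl rfl))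
  refine hcon (bridge c.hc c.hf c.ih c.hX c.hcn c.hp κ (B := C)
    (hC.trans (Finset.sdiff_subset.trans Finset.sdiff_subset))
    (Cl_of_AC (Cl_sdiff c.Cl' k.Cl_R) hAC hC)
    (fun hh => c.pn (Finset.mem_sdiff.1 (hC hh)).1) (q := u1) (x := v1)
    (Finset.mem_sdiff.1 (hY u1Y)).1 (fun hh => (Finset.mem_sdiff.1 (hC hh)).2 u1Y)
    h1 k.o1.1 ?_)
  intro a ha haB b hb hab
  obtain ⟨hb1, hbY⟩ := Finset.mem_sdiff.1 (hC hb)
  obtain ⟨hbX, hbR⟩ := Finset.mem_sdiff.1 hb1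
  by_cases haR : a ∈ c.h.R
  · exfalso
    rcases c.h.cross haR hbR hab with ⟨_, h3⟩ | ⟨_, h3⟩ | ⟨_, h3⟩
    · exact c.hp' (h3 ▸ hbX)
    · rw [h3] at hbY; exact hbY x1Y
    · exact absurd h3 (ne_of_mem_of_not_mem hb hx2)
  · have haY : a ∈ k.R := by
      by_contra hh
      exact haB (hAC b hb a (Finset.mem_sdiff.2 ⟨Finset.mem_sdiff.2 ⟨ha, haR⟩, hh⟩) hab.symm)
    rcases k.cross haY hbY hab with ⟨_, h3⟩ | h3 | ⟨_, h3⟩
    · exact absurd h3 (ne_of_mem_of_not_mem hb1 c.q1n)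
    · exact h3
    · exact absurd h3 (ne_of_mem_of_not_mem hb h2)

/-- Exactly one further link. -/
lemma failT_one (κ : V → Fin 6) (hcn' : Cn G (X \ c.h.R)) {e : Fin 2}
    (hres : ∀ τ' S', (cst G (X \ c.h.R) {x1, x2} κ τ' S' + ((e : ℕ) : ℤ)) % 12 = 0)
    (hN : ∀ τ' S', Sol G (X \ c.h.R) τ' S' →
        LM (τ' x1) (τ' x2) ≤ cst G (X \ c.h.R) {x1, x2} κ τ' S')
    {u1 u2 v1 v2 : V} (k : TU G x1 q1 u1 u2 v1 v2) (hx2Y : x2 ∉ k.R)
    (hv1 : v1 ∉ (X \ c.h.R) \ k.R) (hv2 : v2 ∈ (X \ c.h.R) \ k.R) : False := by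
  have hY : k.R ⊆ X \ c.h.R := c.tY k
  have x1Y : x1 ∈ k.R := k.mem_R.2 (Or.inl rfl)
  have u1Y : u1 ∈ k.R := k.mem_R.2 (Or.inr (Or.inl rfl))
  have u2Y : u2 ∈ k.R := k.mem_R.2 (Or.inr (Or.inr rfl))
  have n1 : u1 ≠ x1 := k.np1.symm
  have n2 : u2 ≠ x1 := k.np2.symm
  have n3 : u2 ≠ u1 := k.n12.symm
  have hx2'' : x2 ∈ (X \ c.h.R) \ k.R := Finset.mem_sdiff.2 ⟨c.x2m, hx2Y⟩
  have hcn'' : Cn G ((X \ c.h.R) \ k.R) := by
    refine Cn_of_single hcn' hY ⟨x1, x1Y⟩ (Finset.Subset.refl _) (fun u _ v hv _ => hv) v2 ?_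
    intro a ha r hr har
    rcases k.cross hr (Finset.mem_sdiff.1 ha).2 har.symm with ⟨_, h2⟩ | ⟨_, h2⟩ | ⟨_, h2⟩
    · exact absurd h2 (ne_of_mem_of_not_mem (Finset.mem_sdiff.1 ha).1 c.q1n)
    · exact absurd h2 (ne_of_mem_of_not_mem ha hv1)
    · exact h2
  have hcard : ((X \ c.h.R) \ k.R).card < X.card :=
    (Finset.card_le_card Finset.sdiff_subset).trans_lt c.card'
  have hcl : Cl G ((X \ c.h.R) \ k.R) := Cl_sdiff c.Cl' k.Cl_R
  have hu2X'' : u2 ∉ (X \ c.h.R) \ k.R := fun h => (Finset.mem_sdiff.1 h).2 u2Y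
  have hu1X'' : u1 ∉ (X \ c.h.R) \ k.R := fun h => (Finset.mem_sdiff.1 h).2 u1Y
  have hx1X'' : x1 ∉ (X \ c.h.R) \ k.R := fun h => (Finset.mem_sdiff.1 h).2 x1Y
  have hv2B : v2 ∈ Bd G ((X \ c.h.R) \ k.R) := mem_Bd.2 ⟨hv2, u2, hu2X'', k.o2.1.symm⟩
  have hx2B : x2 ∈ Bd G ((X \ c.h.R) \ k.R) :=
    mem_Bd.2 ⟨hx2'', q2, fun h => c.q2n (Finset.mem_sdiff.1 h).1, c.h.o2.1.symm⟩
  have nx2v2 : x2 ≠ v2 := by
    intro hh
    have h3 := k.o2.symm
    rw [← hh] at h3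
    have := out_unique c.hc c.hf h3 c.h.o2.symm
    exact absurd this (ne_of_mem_of_not_mem (hY u2Y) c.q2n)
  have nu1x2 : u1 ≠ x2 := ne_of_mem_of_not_mem u1Y hx2Y
  have nu1v2 : u1 ≠ v2 := ne_of_mem_of_not_mem u1Y k.x2_notin
  obtain ⟨j, hj⟩ := c.ih _ hcard hcl hcn'' v2 hv2B (Function.update κ x2 0)
  obtain ⟨a, ha⟩ := c6 e (κ u1) j
  obtain ⟨τ'', S'', g1, g2, g3⟩ := hj a
  rw [cst_upd 0 hx2B (by simpa using nx2v2)] at g3
  have claim : ∀ s v : Fin 4, LM s (τ'' x2) ≤ T s v (sw a) + Gd (κ u1) v +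
        cst G ((X \ c.h.R) \ k.R) (insert x2 {v2}) κ τ'' S'' ∧
      (T s v (sw a) + Gd (κ u1) v + cst G ((X \ c.h.R) \ k.R) (insert x2 {v2}) κ τ'' S'' +
        ((e : ℕ) : ℤ)) % 12 = 0 := by
    intro s v
    obtain ⟨SY, hSY, hSY2⟩ := k.sol (fun b => if b = x1 then s else if b = u1 then v else sw a)
    simp only [if_pos, if_neg n1, if_neg n2, if_neg n3] at hSY2
    rw [T_rot] at hSY2
    have hd : Disjoint k.R ((X \ c.h.R) \ k.R) := Finset.disjoint_sdiff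
    have hun : k.R ∪ ((X \ c.h.R) \ k.R) = X \ c.h.R := Finset.union_sdiff_of_subset hY
    have hsol := glue hd hSY g1 (by
      intro a' ha' b hb hab
      obtain ⟨hbX, hbR⟩ := Finset.mem_sdiff.1 hb
      rcases k.cross ha' hbR hab with ⟨_, h3⟩ | ⟨h3, h4⟩ | ⟨h3, h4⟩
      · exact absurd h3 (ne_of_mem_of_not_mem hbX c.q1n)
      · exact absurd h4 (ne_of_mem_of_not_mem hb hv1)
      · simp only [h3, h4, if_neg n2, if_neg n3]
        rw [g2]
        exact compat' _)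
    have hcst := cst_glue (G := G) (O := {x1, u2, x2, v2}) (κ := κ)
      (τA := fun b => if b = x1 then s else if b = u1 then v else sw a) (τB := τ'')
      hd hSY.sub g1.sub (by
      intro a' ha' b hb hab
      obtain ⟨hbX, hbR⟩ := Finset.mem_sdiff.1 hb
      rcases k.cross ha' hbR hab with ⟨_, h3⟩ | ⟨h3, h4⟩ | ⟨h3, h4⟩
      · exact absurd h3 (ne_of_mem_of_not_mem hbX c.q1n)
      · exact absurd h4 (ne_of_mem_of_not_mem hb hv1)
      · simp [h3, h4])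
    rw [hun] at hsol hcst
    have e1 : ∀ τ S, cst G (X \ c.h.R) {x1, x2} κ τ S = cst G (X \ c.h.R) {x1, u2, x2, v2} κ τ S := by
      intro τ S
      refine cst_congr_O fun b hv => ?_
      have m1 : b ≠ u2 := ne_of_mem_of_not_mem hv (not_Bd_of_out c.hc c.hf c.Cl' (hY u2Y)
        (Finset.mem_sdiff.1 hv2).1 k.o2)
      have m2 : b ≠ v2 := ne_of_mem_of_not_mem hv (not_Bd_of_out c.hc c.hf c.Cl'
        (Finset.mem_sdiff.1 hv2).1 (hY u2Y) k.o2.symm)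
      simp [m1, m2]
    have e2 : cst G ((X \ c.h.R) \ k.R) {x1, u2, x2, v2} κ τ'' S'' =
        cst G ((X \ c.h.R) \ k.R) (insert x2 {v2}) κ τ'' S'' := by
      refine cst_congr_O fun b hv => ?_
      have m1 : b ≠ x1 := ne_of_mem_of_not_mem (Bd_sub hv) hx1X''
      have m2 : b ≠ u2 := ne_of_mem_of_not_mem (Bd_sub hv) hu2X''
      simp [m1, m2]
    have hu1B : u1 ∈ Bd G k.R := by rw [k.Bd_R]; exact u1Y
    have hu1O : u1 ∉ ({x1, u2, x2, v2} : Finset V) := by simp [n1, n3.symm, nu1x2, nu1v2]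
    have e3 : ∀ τ, cst G k.R {x1, u2, x2, v2} κ τ SY =
        12 * (SY.card : ℤ) - 5 * (k.R.card : ℤ) + Gd (κ u1) (τ u1) := by
      intro τ
      rw [cst_insert hu1B hu1O, cst_full]
      intro b hv
      rw [k.Bd_R] at hv
      rcases k.mem_R.1 hv with h3 | h3 | h3 <;> simp [h3]
    rw [e3, hSY2, e2] at hcst
    simp only [if_pos, if_neg n1] at hcst
    have r1 := hN _ _ hsol
    have r2 := hres (mix k.R (fun b => if b = x1 then s else if b = u1 then v else sw a) τ'')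
      (SY ∪ S'')
    rw [e1, hcst] at r1 r2
    rw [mix_left x1Y, mix_right hx2Y] at r1
    simp only [if_pos] at r1
    exact ⟨r1, r2⟩
  have h1 : mx (fun s => mx fun v => LM s (τ'' x2) - T s v (sw a) - Gd (κ u1) v) ≤
      cst G ((X \ c.h.R) \ k.R) (insert x2 {v2}) κ τ'' S'' :=
    mx_le fun s => mx_le fun v => by
      have := (claim s v).1
      linarith
  have h2 : (cst G ((X \ c.h.R) \ k.R) (insert x2 {v2}) κ τ'' S'' -
      (15 - ((e : ℕ) : ℤ) - Gd (κ u1) 0)) % 12 = 0 := by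
    have := (claim 0 0).2
    unfold T at this
    omega
  have h3 := le_of_ru h1 h2
  have h4 := ha (τ'' x2)
  linarith

/-- Both further links go to a connected rest. -/
lemma failT_conn (κ : V → Fin 6) {e : Fin 2}
    (hres : ∀ τ' S', (cst G (X \ c.h.R) {x1, x2} κ τ' S' + ((e : ℕ) : ℤ)) % 12 = 0)
    (hN : ∀ τ' S', Sol G (X \ c.h.R) τ' S' →
        LM (τ' x1) (τ' x2) ≤ cst G (X \ c.h.R) {x1, x2} κ τ' S')
    {u1 u2 v1 v2 : V} (k : TU G x1 q1 u1 u2 v1 v2) (hx2Y : x2 ∉ k.R)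
    (hv1 : v1 ∈ (X \ c.h.R) \ k.R) (hv2 : v2 ∈ (X \ c.h.R) \ k.R)
    (hcn'' : Cn G ((X \ c.h.R) \ k.R)) : False := by
  have hY : k.R ⊆ X \ c.h.R := c.tY k
  have x1Y : x1 ∈ k.R := k.mem_R.2 (Or.inl rfl)
  have u1Y : u1 ∈ k.R := k.mem_R.2 (Or.inr (Or.inl rfl))
  have u2Y : u2 ∈ k.R := k.mem_R.2 (Or.inr (Or.inr rfl))
  have n1 : u1 ≠ x1 := k.np1.symm
  have n2 : u2 ≠ x1 := k.np2.symm
  have n3 : u2 ≠ u1 := k.n12.symm
  have hx2'' : x2 ∈ (X \ c.h.R) \ k.R := Finset.mem_sdiff.2 ⟨c.x2m, hx2Y⟩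
  have hcard : ((X \ c.h.R) \ k.R).card < X.card :=
    (Finset.card_le_card Finset.sdiff_subset).trans_lt c.card'
  have hcl : Cl G ((X \ c.h.R) \ k.R) := Cl_sdiff c.Cl' k.Cl_R
  have hu2X'' : u2 ∉ (X \ c.h.R) \ k.R := fun h => (Finset.mem_sdiff.1 h).2 u2Y
  have hu1X'' : u1 ∉ (X \ c.h.R) \ k.R := fun h => (Finset.mem_sdiff.1 h).2 u1Y
  have hx1X'' : x1 ∉ (X \ c.h.R) \ k.R := fun h => (Finset.mem_sdiff.1 h).2 x1Y
  have hv1B : v1 ∈ Bd G ((X \ c.h.R) \ k.R) := mem_Bd.2 ⟨hv1, u1, hu1X'', k.o1.1.symm⟩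
  have hv2B : v2 ∈ Bd G ((X \ c.h.R) \ k.R) := mem_Bd.2 ⟨hv2, u2, hu2X'', k.o2.1.symm⟩
  have hx2B : x2 ∈ Bd G ((X \ c.h.R) \ k.R) :=
    mem_Bd.2 ⟨hx2'', q2, fun h => c.q2n (Finset.mem_sdiff.1 h).1, c.h.o2.1.symm⟩
  have nx2v1 : x2 ≠ v1 := by
    intro hh
    have h3 := k.o1.symm
    rw [← hh] at h3
    have := out_unique c.hc c.hf h3 c.h.o2.symm
    exact absurd this (ne_of_mem_of_not_mem (hY u1Y) c.q2n)
  have nx2v2 : x2 ≠ v2 := by
    intro hh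
    have h3 := k.o2.symm
    rw [← hh] at h3
    have := out_unique c.hc c.hf h3 c.h.o2.symm
    exact absurd this (ne_of_mem_of_not_mem (hY u2Y) c.q2n)
  have nv : v2 ≠ v1 := by
    intro hh
    have h3 := k.o2.symm
    rw [hh] at h3
    exact n3 (out_unique c.hc c.hf h3 k.o1.symm)
  obtain ⟨j, hj⟩ := c.ih _ hcard hcl hcn'' v1 hv1B (Function.update (Function.update κ v2 1) x2 0)
  obtain ⟨a, ha⟩ := c7 e j
  obtain ⟨τ'', S'', g1, g2, g3⟩ := hj a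
  rw [cst_upd 0 hx2B (by simpa using nx2v1), cst_upd 1 hv2B (by simp [nv, nx2v2.symm])] at g3
  have claim : ∀ s : Fin 4, LM s (τ'' x2) ≤ T s (sw a) (sw (τ'' v2)) +
        cst G ((X \ c.h.R) \ k.R) (insert v2 (insert x2 {v1})) κ τ'' S'' ∧
      (T s (sw a) (sw (τ'' v2)) + cst G ((X \ c.h.R) \ k.R) (insert v2 (insert x2 {v1})) κ τ'' S'' +
        ((e : ℕ) : ℤ)) % 12 = 0 := by
    intro s
    obtain ⟨SY, hSY, hSY2⟩ := k.sol
      (fun b => if b = x1 then s else if b = u1 then sw a else sw (τ'' v2))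
    simp only [if_pos, if_neg n1, if_neg n2, if_neg n3] at hSY2
    rw [T_rot] at hSY2
    have hd : Disjoint k.R ((X \ c.h.R) \ k.R) := Finset.disjoint_sdiff
    have hun : k.R ∪ ((X \ c.h.R) \ k.R) = X \ c.h.R := Finset.union_sdiff_of_subset hY
    have hsol := glue hd hSY g1 (by
      intro a' ha' b hb hab
      obtain ⟨hbX, hbR⟩ := Finset.mem_sdiff.1 hb
      rcases k.cross ha' hbR hab with ⟨_, h3⟩ | ⟨h3, h4⟩ | ⟨h3, h4⟩
      · exact absurd h3 (ne_of_mem_of_not_mem hbX c.q1n)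
      · simp only [h3, h4, if_neg n1, if_pos]
        rw [g2]
        exact compat' _
      · simp only [h3, h4, if_neg n2, if_neg n3]
        exact compat' _)
    have hcst := cst_glue (G := G) (O := {x1, u1, u2, x2, v1, v2}) (κ := κ)
      (τA := fun b => if b = x1 then s else if b = u1 then sw a else sw (τ'' v2)) (τB := τ'')
      hd hSY.sub g1.sub (by
      intro a' ha' b hb hab
      obtain ⟨hbX, hbR⟩ := Finset.mem_sdiff.1 hb
      rcases k.cross ha' hbR hab with ⟨_, h3⟩ | ⟨h3, h4⟩ | ⟨h3, h4⟩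
      · exact absurd h3 (ne_of_mem_of_not_mem hbX c.q1n)
      · simp [h3, h4]
      · simp [h3, h4])
    rw [hun] at hsol hcst
    have e1 : ∀ τ S, cst G (X \ c.h.R) {x1, x2} κ τ S =
        cst G (X \ c.h.R) {x1, u1, u2, x2, v1, v2} κ τ S := by
      intro τ S
      refine cst_congr_O fun b hv => ?_
      have m1 : b ≠ u2 := ne_of_mem_of_not_mem hv (not_Bd_of_out c.hc c.hf c.Cl' (hY u2Y)
        (Finset.mem_sdiff.1 hv2).1 k.o2)
      have m2 : b ≠ v2 := ne_of_mem_of_not_mem hv (not_Bd_of_out c.hc c.hf c.Cl'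
        (Finset.mem_sdiff.1 hv2).1 (hY u2Y) k.o2.symm)
      have m3 : b ≠ u1 := ne_of_mem_of_not_mem hv (not_Bd_of_out c.hc c.hf c.Cl' (hY u1Y)
        (Finset.mem_sdiff.1 hv1).1 k.o1)
      have m4 : b ≠ v1 := ne_of_mem_of_not_mem hv (not_Bd_of_out c.hc c.hf c.Cl'
        (Finset.mem_sdiff.1 hv1).1 (hY u1Y) k.o1.symm)
      simp [m1, m2, m3, m4]
    have e2 : cst G ((X \ c.h.R) \ k.R) {x1, u1, u2, x2, v1, v2} κ τ'' S'' =
        cst G ((X \ c.h.R) \ k.R) (insert v2 (insert x2 {v1})) κ τ'' S'' := by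
      refine cst_congr_O fun b hv => ?_
      have m1 : b ≠ x1 := ne_of_mem_of_not_mem (Bd_sub hv) hx1X''
      have m2 : b ≠ u2 := ne_of_mem_of_not_mem (Bd_sub hv) hu2X''
      have m3 : b ≠ u1 := ne_of_mem_of_not_mem (Bd_sub hv) hu1X''
      simp only [Finset.mem_insert, Finset.mem_singleton, m1, m2, m3, false_or]
      constructor
      · rintro (h | h | h)
        · exact Or.inr (Or.inl h)
        · exact Or.inr (Or.inr h)
        · exact Or.inl h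
      · rintro (h | h | h)
        · exact Or.inr (Or.inr h)
        · exact Or.inl h
        · exact Or.inr (Or.inl h)
    have e3 : ∀ τ, cst G k.R {x1, u1, u2, x2, v1, v2} κ τ SY =
        12 * (SY.card : ℤ) - 5 * (k.R.card : ℤ) := by
      intro τ
      refine cst_full fun b hv => ?_
      rw [k.Bd_R] at hv
      rcases k.mem_R.1 hv with h3 | h3 | h3 <;> simp [h3]
    rw [e3, hSY2, e2] at hcst
    have r1 := hN _ _ hsol
    have r2 := hres (mix k.R (fun b => if b = x1 then s else if b = u1 then sw a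
      else sw (τ'' v2)) τ'') (SY ∪ S'')
    rw [e1, hcst] at r1 r2
    rw [mix_left x1Y, mix_right hx2Y] at r1
    simp only [if_pos] at r1
    exact ⟨r1, r2⟩
  have h1 : mx (fun s => LM s (τ'' x2) - T s (sw a) (sw (τ'' v2))) ≤
      cst G ((X \ c.h.R) \ k.R) (insert v2 (insert x2 {v1})) κ τ'' S'' :=
    mx_le fun s => by
      have := (claim s).1
      linarith
  have h2 : (cst G ((X \ c.h.R) \ k.R) (insert v2 (insert x2 {v1})) κ τ'' S'' -
      (15 - ((e : ℕ) : ℤ))) % 12 = 0 := by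
    have := (claim 0).2
    unfold T at this
    omega
  have h3 := le_of_ru h1 h2
  have h4 := ha (τ'' v2) (τ'' x2)
  linarith

end Ctx

end Pool.Agent.Helper850.CF
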