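import Pool.Agent.Helper850.CF.Induct

set_option autoImplicit false
set_option linter.unusedSectionVars false

open Finset

namespace Pool.Agent.Helper850.CF

variable {V : Type} [Fintype V] [DecidableEq V] {G : SimpleGraph V}

lemma Bd_of_AC {X B : Finset V} (hBX : B ⊆ X) (hAC : AC G X B) {v : V} :
    v ∈ Bd G B ↔ v ∈ B ∧ v ∈ Bd G X := by
  rw [mem_Bd, mem_Bd]
  constructor
  · rintro ⟨h1, u, hu, hvu⟩
    exact ⟨h1, hBX h1, u, fun h => hu (hAC v h1 u h hvu), hvu⟩
  · rintro ⟨h1, _, u, hu, hvu⟩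
    exact ⟨h1, u, fun h => hu (hBX h), hvu⟩

lemma Gd_zero_nonneg : ∀ s, 0 ≤ Gd 0 s := by decide +kernel

lemma W_zero_le : ∀ j, W j 0 ≤ 3 := by decide +kernel

/-- Solving a closed set, component by component. -/
lemma solve_all (hc : Cub G) (hf : Clf G) : ∀ (n : ℕ) (X : Finset V), X.card = n → Cl G X →
    (∀ C ⊆ X, C.Nonempty → AC G X C → ∃ a ∈ C, a ∈ Bd G X) →
    ∃ S ⊆ X, (∀ v ∈ X, v ∉ Bd G X → ∃ u ∈ S, G.Adj v u) ∧
      12 * S.card ≤ 5 * X.card + 3 * (Bd G X).card := by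
  intro n
  induction n using Nat.strong_induction_on with
  | _ n IH =>
    intro X hXn hX hB
    rcases X.eq_empty_or_nonempty with rfl | hne
    · exact ⟨∅, Finset.Subset.refl _, by simp, by simp⟩
    -- a minimal component
    have hex : ∃ m, ∃ B ⊆ X, B.Nonempty ∧ AC G X B ∧ B.card = m :=
      ⟨_, X, Finset.Subset.refl _, hne, fun u _ v hv _ => hv, rfl⟩
    classical
    obtain ⟨B, hBX, hBn, hBAC, hBm⟩ := Nat.find_spec hex
    have hmin : ∀ C ⊆ X, C.Nonempty → AC G X C → B.card ≤ C.card := by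
      intro C h1 h2 h3
      rw [hBm]
      exact Nat.find_min' hex ⟨C, h1, h2, h3, rfl⟩
    have hBcn : Cn G B := by
      intro C hCB hCn hC
      exact Finset.eq_of_subset_of_card_le hCB (hmin C (hCB.trans hBX) hCn (hBAC.trans hC hCB))
    have hBcl : Cl G B := Cl_of_AC hX hBAC hBX
    obtain ⟨x, hxB, hxX⟩ := hB B hBX hBn hBAC
    have hxBd : x ∈ Bd G B := (Bd_of_AC hBX hBAC).2 ⟨hxB, hxX⟩
    obtain ⟨j, hj⟩ := P_all hc hf _ B rfl hBcl hBcn x hxBd (fun _ => 0)
    obtain ⟨τ, S1, hS1, _, hS1c⟩ := hj 0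
    have hsum : 0 ≤ ∑ v ∈ Bd G B \ {x}, Gd 0 (τ v) :=
      Finset.sum_nonneg fun v _ => Gd_zero_nonneg _
    have hcost : 12 * (S1.card : ℤ) ≤ 5 * (B.card : ℤ) + 3 := by
      have := W_zero_le j
      unfold cst at hS1c
      linarith
    -- the rest
    have hAC' : AC G X (X \ B) := hBAC.compl
    have hcard : (X \ B).card < n := by
      rw [← hXn]
      exact Finset.card_lt_card ⟨Finset.sdiff_subset, fun h => (Finset.mem_sdiff.1 (h (hBX hxB))).2 hxB⟩
    obtain ⟨S2, hS2, hS2d, hS2c⟩ := IH _ hcard (X \ B) rfl (Cl_sdiff hX hBcl) (by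
      intro C hC hCn hCAC
      obtain ⟨a, ha, haX⟩ := hB C (hC.trans Finset.sdiff_subset) hCn (hAC'.trans hCAC hC)
      exact ⟨a, ha, (Bd_of_AC Finset.sdiff_subset hAC').2 ⟨hC ha, haX⟩⟩)
    refine ⟨S1 ∪ S2, Finset.union_subset (hS1.sub.trans hBX) (hS2.trans Finset.sdiff_subset), ?_, ?_⟩
    · intro v hv hvB
      by_cases h : v ∈ B
      · obtain ⟨u, hu, hvu⟩ := hS1.inn v h (fun hh => hvB ((Bd_of_AC hBX hBAC).1 hh).2)
        exact ⟨u, Finset.mem_union_left _ hu, hvu⟩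
      · obtain ⟨u, hu, hvu⟩ := hS2d v (Finset.mem_sdiff.2 ⟨hv, h⟩)
          (fun hh => hvB ((Bd_of_AC Finset.sdiff_subset hAC').1 hh).2)
        exact ⟨u, Finset.mem_union_right _ hu, hvu⟩
    · have e1 : (S1 ∪ S2).card ≤ S1.card + S2.card := Finset.card_union_le _ _
      have e2 : (X \ B).card + B.card = X.card := Finset.card_sdiff_add_card_eq_card hBX
      have e3 : (Bd G B).card + (Bd G (X \ B)).card ≤ (Bd G X).card := by
        rw [← Finset.card_union_of_disjoint]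
        · refine Finset.card_le_card fun v hv => ?_
          rcases Finset.mem_union.1 hv with h | h
          · exact ((Bd_of_AC hBX hBAC).1 h).2
          · exact ((Bd_of_AC Finset.sdiff_subset hAC').1 h).2
        · exact Finset.disjoint_of_subset_left Bd_sub
            (Finset.disjoint_of_subset_right Bd_sub Finset.disjoint_sdiff)
      have e4 : 1 ≤ (Bd G B).card := Finset.card_pos.2 ⟨x, hxBd⟩
      omega

lemma Cn_univ (h : G.Connected) : Cn G (Finset.univ : Finset V) := by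
  intro A _ hA hAC
  obtain ⟨a, ha⟩ := hA
  ext v
  simp only [Finset.mem_univ, iff_true]
  obtain ⟨w⟩ := h.preconnected a v
  clear h
  induction w with
  | nil => exact ha
  | cons hadj _ ih => exact ih (hAC _ ha _ (Finset.mem_univ _) hadj)

/-- The case of a graph with a unit `R`. -/
lemma finish (hc : Cub G) (hf : Clf G) (hconn : G.Connected) {R : Finset V} (hR : Cl G R)
    (hRn : R.Nonempty) (hRc : R.card ≤ 4) (hdom : ∀ r ∈ R, ∃ r' ∈ R, G.Adj r r')
    {Q : Finset V} (hQ : Q.card ≤ 3) (hQ' : ∀ r ∈ R, ∀ v ∉ R, G.Adj r v → v ∈ Q) :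
    ∃ S : Finset V, (∀ v, ∃ u ∈ S, G.Adj v u) ∧ 12 * S.card ≤ 5 * Fintype.card V + 64 := by
  have hX : Cl G (Finset.univ \ R) := Cl_sdiff (fun _ _ _ _ => Finset.mem_univ _) hR
  obtain ⟨S, hS, hSd, hSc⟩ := solve_all hc hf _ (Finset.univ \ R) rfl hX (by
    intro C hC hCn hCAC
    obtain ⟨a, ha, r, hr, har⟩ := meet (Cn_univ hconn) (Finset.subset_univ R) hRn hC hCn hCAC
    exact ⟨a, ha, mem_Bd.2 ⟨hC ha, r, fun h => (Finset.mem_sdiff.1 h).2 hr, har⟩⟩)
  have hBd : ∀ v, v ∈ Bd G (Finset.univ \ R) → ∃ r ∈ R, G.Adj v r := by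
    intro v hv
    obtain ⟨_, u, hu, hvu⟩ := mem_Bd.1 hv
    refine ⟨u, ?_, hvu⟩
    by_contra h
    exact hu (Finset.mem_sdiff.2 ⟨Finset.mem_univ _, h⟩)
  refine ⟨R ∪ S, ?_, ?_⟩
  · intro v
    by_cases hv : v ∈ R
    · obtain ⟨r', hr', h⟩ := hdom v hv
      exact ⟨r', Finset.mem_union_left _ hr', h⟩
    · by_cases hb : v ∈ Bd G (Finset.univ \ R)
      · obtain ⟨r, hr, h⟩ := hBd v hb
        exact ⟨r, Finset.mem_union_left _ hr, h⟩
      · obtain ⟨u, hu, h⟩ := hSd v (Finset.mem_sdiff.2 ⟨Finset.mem_univ _, hv⟩) hb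
        exact ⟨u, Finset.mem_union_right _ hu, h⟩
  · have e1 : (R ∪ S).card ≤ R.card + S.card := Finset.card_union_le _ _
    have e2 : (Finset.univ \ R).card + R.card = Fintype.card V := by
      rw [Finset.card_sdiff_add_card_eq_card (Finset.subset_univ R), Finset.card_univ]
    have e3 : (Bd G (Finset.univ \ R)).card ≤ Q.card := by
      refine Finset.card_le_card fun v hv => ?_
      obtain ⟨r, hr, h⟩ := hBd v hv
      exact hQ' r hr v (Finset.mem_sdiff.1 (Bd_sub hv)).2 h.symm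
    omega

lemma all_inner (hc : Cub G) (h : ∀ a b, ¬ Out G a b) {v a t : V} (h1 : G.Adj v a)
    (h2 : G.Adj a t) (h3 : t ≠ v) : G.Adj v t := by
  have hin : ∀ a b, G.Adj a b → ∃ w, G.Adj a w ∧ G.Adj b w := by
    intro a b hab
    by_contra hh
    push Not at hh
    exact h a b ⟨hab, fun w hw => hh w hw.1 hw.2⟩
  by_contra hvt
  obtain ⟨s, hs1, hs2⟩ := hin a t h2
  obtain ⟨s', g1, g2, g3⟩ := hc.one h1.symm h2 h3.symm
  have hsv : s ≠ v := fun e => hvt (e ▸ hs2.symm)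
  have hst : s ≠ t := hs2.ne.symm
  have hss : s = s' := by
    rcases (g3 s).1 hs1 with e | e | e
    · exact absurd e hsv
    · exact absurd e hst
    · exact e
  obtain ⟨w, hw1, hw2⟩ := hin v a h1
  have hws : w = s' := by
    rcases (g3 w).1 hw2 with e | e | e
    · exact absurd e hw1.ne.symm
    · exact absurd (e ▸ hw1) hvt
    · exact e
  have hvs : G.Adj v s' := hws ▸ hw1
  have has : G.Adj s' a := (hss ▸ hs1).symm
  obtain ⟨c, f1, f2, f3⟩ := hc.one has hvs.symm h1.ne.symm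
  have hct : t = c := by
    have : G.Adj s' t := (hss ▸ hs2).symm
    rcases (f3 t).1 this with e | e | e
    · exact absurd e h2.ne.symm
    · exact absurd e h3
    · exact e
  have has' : a ≠ s' := has.ne.symm
  obtain ⟨c', k1, k2, k3⟩ := hc.one h1 hvs has'
  have hvc' : G.Adj v c' := (k3 c').2 (Or.inr (Or.inr rfl))
  obtain ⟨w2, m1, m2⟩ := hin v c' hvc'
  rcases (k3 w2).1 m1 with e | e | e
  · rw [e] at m2
    rcases (g3 c').1 m2.symm with e' | e' | e'
    · exact hvc'.ne e'.symm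
    · exact hvt (e' ▸ hvc')
    · exact k2 e'.symm
  · rw [e] at m2
    rcases (f3 c').1 m2.symm with e' | e' | e'
    · exact k1 e'.symm
    · exact hvc'.ne e'.symm
    · exact hvt (hct ▸ e' ▸ hvc')
  · exact m2.ne e.symm

/-- The upper bound. -/
theorem upper (hc : Cub G) (hf : Clf G) (hconn : G.Connected) :
    ∃ S : Finset V, (∀ v, ∃ u ∈ S, G.Adj v u) ∧ 12 * S.card ≤ 5 * Fintype.card V + 64 := by
  by_cases hout : ∃ p p', Out G p p'
  · obtain ⟨p, p', hp⟩ := hout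
    rcases unit_structure hc hf hp with ⟨q1, q2, x1, x2, k⟩ | ⟨y, z, w, w', k⟩
    · refine finish hc hf hconn k.Cl_R ⟨p, k.mem_R.2 (Or.inl rfl)⟩ (by rw [k.card_R]; norm_num)
        ?_ (Q := {p', x1, x2}) Finset.card_le_three ?_
      · intro r hr
        rcases k.mem_R.1 hr with rfl | rfl | rfl
        · exact ⟨q1, k.mem_R.2 (Or.inr (Or.inl rfl)), (k.ap _).2 (Or.inr (Or.inl rfl))⟩
        · exact ⟨q2, k.mem_R.2 (Or.inr (Or.inr rfl)), (k.a1 _).2 (Or.inr (Or.inl rfl))⟩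
        · exact ⟨q1, k.mem_R.2 (Or.inr (Or.inl rfl)), (k.a2 _).2 (Or.inr (Or.inl rfl))⟩
      · intro r hr v hv hrv
        rcases k.cross hr hv hrv with ⟨_, rfl⟩ | ⟨_, rfl⟩ | ⟨_, rfl⟩ <;> simp
    · refine finish hc hf hconn k.Cl_R ⟨p, k.mem_R.2 (Or.inl rfl)⟩ (by rw [k.card_R])
        ?_ (Q := {p', w'}) (Finset.card_le_two.trans (by norm_num)) ?_
      · intro r hr
        rcases k.mem_R.1 hr with rfl | rfl | rfl | rfl
        · exact ⟨y, k.mem_R.2 (Or.inr (Or.inl rfl)), (k.ap _).2 (Or.inr (Or.inl rfl))⟩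
        · exact ⟨z, k.mem_R.2 (Or.inr (Or.inr (Or.inl rfl))), (k.ay _).2 (Or.inr (Or.inl rfl))⟩
        · exact ⟨y, k.mem_R.2 (Or.inr (Or.inl rfl)), (k.az _).2 (Or.inr (Or.inl rfl))⟩
        · exact ⟨y, k.mem_R.2 (Or.inr (Or.inl rfl)), (k.aw _).2 (Or.inl rfl)⟩
      · intro r hr v hv hrv
        rcases k.cross hr hv hrv with ⟨_, rfl⟩ | ⟨_, rfl⟩ <;> simp
  · push Not at hout
    obtain ⟨v⟩ := hconn.nonempty
    obtain ⟨a, b, c, _, _, _, h4⟩ := hc v
    have hN : ({v, a, b, c} : Finset V) = Finset.univ := by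
      refine Cn_univ hconn _ (Finset.subset_univ _) ⟨v, by simp⟩ fun u hu t _ hut => ?_
      have key : t = v ∨ G.Adj v t := by
        by_cases htv : t = v
        · exact Or.inl htv
        · right
          simp only [Finset.mem_insert, Finset.mem_singleton] at hu
          rcases hu with hu | hu
          · exact hu ▸ hut
          · exact all_inner hc hout ((h4 u).2 hu) hut htv
      simp only [Finset.mem_insert, Finset.mem_singleton]
      rcases key with h | h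
      · exact Or.inl h
      · exact Or.inr ((h4 t).1 h)
    have hcard : Fintype.card V ≤ 4 := by
      rw [← Finset.card_univ, ← hN]
      exact Finset.card_le_four
    refine ⟨Finset.univ, fun v => ?_, ?_⟩
    · obtain ⟨a, b, c, _, _, _, h4⟩ := hc v
      exact ⟨a, Finset.mem_univ _, (h4 a).2 (Or.inl rfl)⟩
    · rw [Finset.card_univ]
      omega

end Pool.Agent.Helper850.CF
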