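import Pool.Agent.Helper850.CF.Basic

set_option autoImplicit false
set_option linter.unusedSectionVars false

open Finset

namespace Pool.Agent.Helper850.CF

variable {V : Type} [Fintype V] [DecidableEq V] {G : SimpleGraph V}

/-- Mixing two state functions. -/
def mix (A : Finset V) (f g : V → Fin 4) : V → Fin 4 := fun v => if v ∈ A then f v else g v

lemma mix_left {A : Finset V} {f g : V → Fin 4} {v : V} (h : v ∈ A) : mix A f g v = f v := if_pos h
lemma mix_right {A : Finset V} {f g : V → Fin 4} {v : V} (h : v ∉ A) : mix A f g v = g v := if_neg h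

lemma glue {A B SA SB : Finset V} {τA τB : V → Fin 4} (hd : Disjoint A B)
    (hA : Sol G A τA SA) (hB : Sol G B τB SB)
    (hl : ∀ a ∈ A, ∀ b ∈ B, G.Adj a b → (dm (τA a) = true ∨ mb (τB b) = true) ∧
      (dm (τB b) = true ∨ mb (τA a) = true)) :
    Sol G (A ∪ B) (mix A τA τB) (SA ∪ SB) := by
  have hdis : ∀ v ∈ B, v ∉ A := fun v hv hv' => (Finset.disjoint_left.1 hd) hv' hv
  refine ⟨Finset.union_subset_union hA.sub hB.sub, ?_, ?_, ?_⟩
  · intro v hv hvb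
    have hn : ∀ u, G.Adj v u → u ∈ A ∪ B := by
      intro u hu
      by_contra hc
      exact hvb (mem_Bd.2 ⟨hv, u, hc, hu⟩)
    rcases Finset.mem_union.1 hv with h | h
    · by_cases hb : v ∈ Bd G A
      · obtain ⟨_, u, hu, hvu⟩ := mem_Bd.1 hb
        have huB : u ∈ B := (Finset.mem_union.1 (hn u hvu)).resolve_left hu
        rcases (hl v h u huB hvu).1 with h1 | h1
        · obtain ⟨w, hw, hvw⟩ := hA.dom v hb h1
          exact ⟨w, Finset.mem_union_left _ hw, hvw⟩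
        · have := hB.mem u (mem_Bd.2 ⟨huB, v, fun hvB => hdis v hvB h, hvu.symm⟩) h1
          exact ⟨u, Finset.mem_union_right _ this, hvu⟩
      · obtain ⟨w, hw, hvw⟩ := hA.inn v h hb
        exact ⟨w, Finset.mem_union_left _ hw, hvw⟩
    · by_cases hb : v ∈ Bd G B
      · obtain ⟨_, u, hu, hvu⟩ := mem_Bd.1 hb
        have huA : u ∈ A := (Finset.mem_union.1 (hn u hvu)).resolve_right hu
        rcases (hl u huA v h hvu.symm).2 with h1 | h1
        · obtain ⟨w, hw, hvw⟩ := hB.dom v hb h1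
          exact ⟨w, Finset.mem_union_right _ hw, hvw⟩
        · have := hA.mem u (mem_Bd.2 ⟨huA, v, hdis v h, hvu.symm⟩) h1
          exact ⟨u, Finset.mem_union_left _ this, hvu⟩
      · obtain ⟨w, hw, hvw⟩ := hB.inn v h hb
        exact ⟨w, Finset.mem_union_right _ hw, hvw⟩
  · intro v hv hm
    obtain ⟨hv1, u, hu, hvu⟩ := mem_Bd.1 hv
    rw [Finset.mem_union, not_or] at hu
    rcases Finset.mem_union.1 hv1 with h | h
    · rw [mix_left h] at hm
      exact Finset.mem_union_left _ (hA.mem v (mem_Bd.2 ⟨h, u, hu.1, hvu⟩) hm)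
    · rw [mix_right (hdis v h)] at hm
      exact Finset.mem_union_right _ (hB.mem v (mem_Bd.2 ⟨h, u, hu.2, hvu⟩) hm)
  · intro v hv hm
    obtain ⟨hv1, u, hu, hvu⟩ := mem_Bd.1 hv
    rw [Finset.mem_union, not_or] at hu
    rcases Finset.mem_union.1 hv1 with h | h
    · rw [mix_left h] at hm
      obtain ⟨w, hw, hvw⟩ := hA.dom v (mem_Bd.2 ⟨h, u, hu.1, hvu⟩) hm
      exact ⟨w, Finset.mem_union_left _ hw, hvw⟩
    · rw [mix_right (hdis v h)] at hm
      obtain ⟨w, hw, hvw⟩ := hB.dom v (mem_Bd.2 ⟨h, u, hu.2, hvu⟩) hm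
      exact ⟨w, Finset.mem_union_right _ hw, hvw⟩

lemma cst_glue {A B O SA SB : Finset V} {κ : V → Fin 6} {τA τB : V → Fin 4} (hd : Disjoint A B)
    (hSA : SA ⊆ A) (hSB : SB ⊆ B) (hO : ∀ a ∈ A, ∀ b ∈ B, G.Adj a b → a ∈ O ∧ b ∈ O) :
    cst G (A ∪ B) O κ (mix A τA τB) (SA ∪ SB) = cst G A O κ τA SA + cst G B O κ τB SB := by
  have hdis : ∀ v ∈ B, v ∉ A := fun v hv hv' => (Finset.disjoint_left.1 hd) hv' hv
  have hS : Disjoint SA SB := Finset.disjoint_of_subset_left hSA (Finset.disjoint_of_subset_right hSB hd)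
  have hB : Bd G (A ∪ B) \ O = (Bd G A \ O) ∪ (Bd G B \ O) := by
    ext v
    simp only [Finset.mem_sdiff, Finset.mem_union, mem_Bd]
    constructor
    · rintro ⟨⟨h | h, u, hu, hvu⟩, hO'⟩
      · exact Or.inl ⟨⟨h, u, fun hh => hu (Or.inl hh), hvu⟩, hO'⟩
      · exact Or.inr ⟨⟨h, u, fun hh => hu (Or.inr hh), hvu⟩, hO'⟩
    · rintro (⟨⟨h, u, hu, hvu⟩, hO'⟩ | ⟨⟨h, u, hu, hvu⟩, hO'⟩)
      · refine ⟨⟨Or.inl h, u, ?_, hvu⟩, hO'⟩
        rintro (hh | hh)
        · exact hu hh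
        · exact hO' (hO v h u hh hvu).1
      · refine ⟨⟨Or.inr h, u, ?_, hvu⟩, hO'⟩
        rintro (hh | hh)
        · exact hO' (hO u hh v h hvu.symm).2
        · exact hu hh
  have hBd : Disjoint (Bd G A \ O) (Bd G B \ O) :=
    Finset.disjoint_of_subset_left (Finset.sdiff_subset.trans Bd_sub)
      (Finset.disjoint_of_subset_right (Finset.sdiff_subset.trans Bd_sub) hd)
  unfold cst
  rw [hB, Finset.sum_union hBd, Finset.card_union_of_disjoint hS, Finset.card_union_of_disjoint hd]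
  have e1 : ∑ v ∈ Bd G A \ O, Gd (κ v) (mix A τA τB v) = ∑ v ∈ Bd G A \ O, Gd (κ v) (τA v) :=
    Finset.sum_congr rfl fun v hv => by
      rw [mix_left (Bd_sub (Finset.mem_sdiff.1 hv).1)]
  have e2 : ∑ v ∈ Bd G B \ O, Gd (κ v) (mix A τA τB v) = ∑ v ∈ Bd G B \ O, Gd (κ v) (τB v) :=
    Finset.sum_congr rfl fun v hv => by
      rw [mix_right (hdis v (Bd_sub (Finset.mem_sdiff.1 hv).1))]
  rw [e1, e2]
  push_cast
  ring

lemma cst_congr_O {X O O' S : Finset V} {κ : V → Fin 6} {τ : V → Fin 4}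
    (h : ∀ v ∈ Bd G X, v ∈ O ↔ v ∈ O') : cst G X O κ τ S = cst G X O' κ τ S := by
  have : Bd G X \ O = Bd G X \ O' := by
    ext v
    simp only [Finset.mem_sdiff]
    constructor
    · rintro ⟨h1, h2⟩; exact ⟨h1, fun hh => h2 ((h v h1).2 hh)⟩
    · rintro ⟨h1, h2⟩; exact ⟨h1, fun hh => h2 ((h v h1).1 hh)⟩
  unfold cst
  rw [this]

lemma cst_upd {X O S : Finset V} {κ : V → Fin 6} {τ : V → Fin 4} {x : V} (i : Fin 6)
    (hx : x ∈ Bd G X) (hxO : x ∉ O) :
    cst G X O (Function.update κ x i) τ S = cst G X (insert x O) κ τ S + Gd i (τ x) := by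
  have : Bd G X \ O = insert x (Bd G X \ insert x O) := by
    ext v
    simp only [Finset.mem_sdiff, Finset.mem_insert]
    constructor
    · rintro ⟨h1, h2⟩
      by_cases hv : v = x
      · exact Or.inl hv
      · exact Or.inr ⟨h1, fun hh => hh.elim hv h2⟩
    · rintro (rfl | ⟨h1, h2⟩)
      · exact ⟨hx, hxO⟩
      · exact ⟨h1, fun hh => h2 (Or.inr hh)⟩
  unfold cst
  rw [this, Finset.sum_insert (by simp)]
  have e : ∑ v ∈ Bd G X \ insert x O, Gd (Function.update κ x i v) (τ v) =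
      ∑ v ∈ Bd G X \ insert x O, Gd (κ v) (τ v) := by
    refine Finset.sum_congr rfl fun v hv => ?_
    have : v ≠ x := by
      rintro rfl
      exact (Finset.mem_sdiff.1 hv).2 (Finset.mem_insert_self _ _)
    rw [Function.update_of_ne this]
  rw [e, Function.update_self]
  ring

lemma cst_res (X O : Finset V) (κ : V → Fin 6) :
    ∃ r : Fin 12, ∀ (τ : V → Fin 4) (S : Finset V), (cst G X O κ τ S - ((r : ℕ) : ℤ)) % 12 = 0 := by
  set c : ℤ := - 5 * (X.card : ℤ) + ∑ v ∈ Bd G X \ O, Gd (κ v) 0 with hc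
  have h0 : 0 ≤ c % 12 := Int.emod_nonneg _ (by norm_num)
  have h1 : c % 12 < 12 := Int.emod_lt_of_pos _ (by norm_num)
  refine ⟨⟨(c % 12).toNat, by omega⟩, fun τ S => ?_⟩
  have hs : (12 : ℤ) ∣ ∑ v ∈ Bd G X \ O, (Gd (κ v) (τ v) - Gd (κ v) 0) :=
    Finset.dvd_sum fun v _ => Int.dvd_of_emod_eq_zero (Gd_res _ _)
  rw [Finset.sum_sub_distrib] at hs
  have e : cst G X O κ τ S - c = 12 * (S.card : ℤ) +
      (∑ v ∈ Bd G X \ O, Gd (κ v) (τ v) - ∑ v ∈ Bd G X \ O, Gd (κ v) 0) := by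
    rw [hc]; unfold cst; ring
  have hnat : (((⟨(c % 12).toNat, by omega⟩ : Fin 12) : ℕ) : ℤ) = c % 12 := by
    simp only [Int.toNat_of_nonneg h0]
  rw [hnat]
  obtain ⟨k, hk⟩ := hs
  rw [hk] at e
  omega

/-! ### Units -/

lemma tri_choice : ∀ a b c : Fin 4, ∃ m1 m2 m3 : Bool, (mb a = true → m1 = true) ∧
    (mb b = true → m2 = true) ∧ (mb c = true → m3 = true) ∧
    (dm a = true → m2 = true ∨ m3 = true) ∧ (dm b = true → m1 = true ∨ m3 = true) ∧
    (dm c = true → m1 = true ∨ m2 = true) ∧ m1.toNat + m2.toNat + m3.toNat = tc a b c := by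
  decide +kernel

lemma dia_choice : ∀ a b : Fin 4, ∃ m1 m2 m3 m4 : Bool, (mb a = true → m1 = true) ∧
    (mb b = true → m4 = true) ∧ (dm a = true → m2 = true ∨ m3 = true) ∧
    (dm b = true → m2 = true ∨ m3 = true) ∧ (m1 = true ∨ m3 = true ∨ m4 = true) ∧
    (m1 = true ∨ m2 = true ∨ m4 = true) ∧ m1.toNat + m2.toNat + m3.toNat + m4.toNat = dc a b := by
  decide +kernel

/-- Optional singleton. -/
def osg (m : Bool) (v : V) : Finset V := if m = true then {v} else ∅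

lemma mem_osg {m : Bool} {v u : V} : u ∈ osg m v ↔ m = true ∧ u = v := by
  unfold osg
  cases m <;> simp

lemma card_osg {m : Bool} {v : V} : (osg m v).card = m.toNat := by
  unfold osg
  cases m <;> simp

namespace TU

variable {p p' q1 q2 x1 x2 : V}

/-- The unit. -/
def R (_ : TU G p p' q1 q2 x1 x2) : Finset V := {p, q1, q2}

lemma mem_R (h : TU G p p' q1 q2 x1 x2) {v : V} : v ∈ h.R ↔ v = p ∨ v = q1 ∨ v = q2 := by
  simp [R]

lemma p'_notin (h : TU G p p' q1 q2 x1 x2) : p' ∉ h.R := by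
  rw [mem_R]
  have e1 : G.Adj p q1 := (h.ap _).2 (Or.inr (Or.inl rfl))
  have e2 : G.Adj p q2 := (h.ap _).2 (Or.inr (Or.inr rfl))
  have e12 : G.Adj q1 q2 := (h.a1 _).2 (Or.inr (Or.inl rfl))
  rintro (rfl | rfl | rfl)
  · exact h.op.1.ne rfl
  · exact h.op.2 q2 ⟨e2, e12⟩
  · exact h.op.2 q1 ⟨e1, e12.symm⟩

lemma x1_notin (h : TU G p p' q1 q2 x1 x2) : x1 ∉ h.R := by
  rw [mem_R]
  have e1 : G.Adj p q1 := (h.ap _).2 (Or.inr (Or.inl rfl))
  have e2 : G.Adj p q2 := (h.ap _).2 (Or.inr (Or.inr rfl))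
  have e12 : G.Adj q1 q2 := (h.a1 _).2 (Or.inr (Or.inl rfl))
  rintro (rfl | rfl | rfl)
  · exact h.o1.2 q2 ⟨e12, e2⟩
  · exact h.o1.1.ne rfl
  · exact h.o1.2 p ⟨e1.symm, e2.symm⟩

lemma x2_notin (h : TU G p p' q1 q2 x1 x2) : x2 ∉ h.R := by
  rw [mem_R]
  have e1 : G.Adj p q1 := (h.ap _).2 (Or.inr (Or.inl rfl))
  have e2 : G.Adj p q2 := (h.ap _).2 (Or.inr (Or.inr rfl))
  have e12 : G.Adj q1 q2 := (h.a1 _).2 (Or.inr (Or.inl rfl))
  rintro (rfl | rfl | rfl)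
  · exact h.o2.2 q1 ⟨e12.symm, e1⟩
  · exact h.o2.2 p ⟨e2.symm, e1.symm⟩
  · exact h.o2.1.ne rfl

lemma Bd_R (h : TU G p p' q1 q2 x1 x2) : Bd G h.R = h.R := by
  ext v
  rw [mem_Bd]
  constructor
  · exact fun hh => hh.1
  · intro hv
    refine ⟨hv, ?_⟩
    rcases h.mem_R.1 hv with rfl | rfl | rfl
    · exact ⟨p', h.p'_notin, h.op.1⟩
    · exact ⟨x1, h.x1_notin, h.o1.1⟩
    · exact ⟨x2, h.x2_notin, h.o2.1⟩

lemma card_R (h : TU G p p' q1 q2 x1 x2) : h.R.card = 3 := by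
  unfold R
  rw [Finset.card_insert_of_notMem, Finset.card_insert_of_notMem, Finset.card_singleton]
  · simp [h.n12]
  · simp [h.np1, h.np2]

lemma cross (h : TU G p p' q1 q2 x1 x2) {a b : V} (ha : a ∈ h.R) (hb : b ∉ h.R)
    (hab : G.Adj a b) : (a = p ∧ b = p') ∨ (a = q1 ∧ b = x1) ∨ (a = q2 ∧ b = x2) := by
  rw [mem_R] at hb
  rcases h.mem_R.1 ha with rfl | rfl | rfl
  · rcases (h.ap b).1 hab with h' | h' | h'
    · exact Or.inl ⟨rfl, h'⟩
    · exact absurd (Or.inr (Or.inl h')) hb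
    · exact absurd (Or.inr (Or.inr h')) hb
  · rcases (h.a1 b).1 hab with h' | h' | h'
    · exact absurd (Or.inl h') hb
    · exact absurd (Or.inr (Or.inr h')) hb
    · exact Or.inr (Or.inl ⟨rfl, h'⟩)
  · rcases (h.a2 b).1 hab with h' | h' | h'
    · exact absurd (Or.inl h') hb
    · exact absurd (Or.inr (Or.inl h')) hb
    · exact Or.inr (Or.inr ⟨rfl, h'⟩)

lemma Cl_R (h : TU G p p' q1 q2 x1 x2) : Cl G h.R := by
  intro u hu v huv
  by_contra hv
  obtain ⟨hadj, w, hw1, hw2⟩ := huv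
  rcases h.cross hu hv hadj with ⟨rfl, rfl⟩ | ⟨rfl, rfl⟩ | ⟨rfl, rfl⟩
  · exact h.op.2 w ⟨hw1, hw2⟩
  · exact h.o1.2 w ⟨hw1, hw2⟩
  · exact h.o2.2 w ⟨hw1, hw2⟩

lemma sub (h : TU G p p' q1 q2 x1 x2) {X : Finset V} (hX : Cl G X) (hp : p ∈ X) : h.R ⊆ X := by
  have e1 : G.Adj p q1 := (h.ap _).2 (Or.inr (Or.inl rfl))
  have e2 : G.Adj p q2 := (h.ap _).2 (Or.inr (Or.inr rfl))
  have e12 : G.Adj q1 q2 := (h.a1 _).2 (Or.inr (Or.inl rfl))
  intro v hv
  rcases h.mem_R.1 hv with rfl | rfl | rfl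
  · exact hp
  · exact hX p hp _ ⟨e1, q2, e2, e12⟩
  · exact hX p hp _ ⟨e2, q1, e1, e12.symm⟩

/-- Every state function is solvable on the unit, at the tabulated cost. -/
lemma sol (h : TU G p p' q1 q2 x1 x2) (τ : V → Fin 4) :
    ∃ S, Sol G h.R τ S ∧ 12 * (S.card : ℤ) - 5 * (h.R.card : ℤ) = T (τ q1) (τ q2) (τ p) := by
  obtain ⟨m1, m2, m3, h1, h2, h3, h4, h5, h6, h7⟩ := tri_choice (τ q1) (τ q2) (τ p)
  have e1 : G.Adj p q1 := (h.ap _).2 (Or.inr (Or.inl rfl))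
  have e2 : G.Adj p q2 := (h.ap _).2 (Or.inr (Or.inr rfl))
  have e12 : G.Adj q1 q2 := (h.a1 _).2 (Or.inr (Or.inl rfl))
  refine ⟨osg m1 q1 ∪ osg m2 q2 ∪ osg m3 p, ⟨?_, ?_, ?_, ?_⟩, ?_⟩
  · intro v hv
    simp only [Finset.mem_union, mem_osg] at hv
    rw [h.mem_R]
    rcases hv with (hv | hv) | hv
    · exact Or.inr (Or.inl hv.2)
    · exact Or.inr (Or.inr hv.2)
    · exact Or.inl hv.2
  · intro v hv hb
    rw [h.Bd_R] at hb
    exact absurd hv hb
  · intro v hv hm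
    simp only [Finset.mem_union, mem_osg]
    rw [h.Bd_R, h.mem_R] at hv
    rcases hv with rfl | rfl | rfl
    · exact Or.inr ⟨h3 hm, rfl⟩
    · exact Or.inl (Or.inl ⟨h1 hm, rfl⟩)
    · exact Or.inl (Or.inr ⟨h2 hm, rfl⟩)
  · intro v hv hm
    simp only [Finset.mem_union, mem_osg]
    rw [h.Bd_R, h.mem_R] at hv
    rcases hv with rfl | rfl | rfl
    · rcases h6 hm with hh | hh
      · exact ⟨q1, Or.inl (Or.inl ⟨hh, rfl⟩), e1⟩
      · exact ⟨q2, Or.inl (Or.inr ⟨hh, rfl⟩), e2⟩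
    · rcases h4 hm with hh | hh
      · exact ⟨q2, Or.inl (Or.inr ⟨hh, rfl⟩), e12⟩
      · exact ⟨p, Or.inr ⟨hh, rfl⟩, e1.symm⟩
    · rcases h5 hm with hh | hh
      · exact ⟨q1, Or.inl (Or.inl ⟨hh, rfl⟩), e12.symm⟩
      · exact ⟨p, Or.inr ⟨hh, rfl⟩, e2.symm⟩
  · have hc : (osg m1 q1 ∪ osg m2 q2 ∪ osg m3 p).card = tc (τ q1) (τ q2) (τ p) := by
      rw [Finset.card_union_of_disjoint, Finset.card_union_of_disjoint, card_osg, card_osg,
        card_osg, h7]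
      · rw [Finset.disjoint_left]
        intro a ha hb
        rw [mem_osg] at ha hb
        exact h.n12 (ha.2.symm.trans hb.2)
      · rw [Finset.disjoint_left]
        intro a ha hb
        rw [Finset.mem_union, mem_osg, mem_osg] at ha
        rw [mem_osg] at hb
        rcases ha with ha | ha
        · exact h.np1 (hb.2.symm.trans ha.2)
        · exact h.np2 (hb.2.symm.trans ha.2)
    rw [hc, h.card_R]
    unfold T
    norm_num

end TU

namespace DU

variable {p p' y z w w' : V}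

/-- The unit. -/
def R (_ : DU G p p' y z w w') : Finset V := {p, y, z, w}

lemma mem_R (h : DU G p p' y z w w') {v : V} : v ∈ h.R ↔ v = p ∨ v = y ∨ v = z ∨ v = w := by
  simp [R]

lemma p'_notin (h : DU G p p' y z w w') : p' ∉ h.R := by
  rw [mem_R]
  have e1 : G.Adj p y := (h.ap _).2 (Or.inr (Or.inl rfl))
  have e2 : G.Adj p z := (h.ap _).2 (Or.inr (Or.inr rfl))
  have e12 : G.Adj y z := (h.ay _).2 (Or.inr (Or.inl rfl))
  have e3 : G.Adj w y := (h.aw _).2 (Or.inl rfl)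
  rintro (rfl | rfl | rfl | rfl)
  · exact h.op.1.ne rfl
  · exact h.op.2 z ⟨e2, e12⟩
  · exact h.op.2 y ⟨e1, e12.symm⟩
  · exact h.op.2 y ⟨e1, e3⟩

lemma w'_notin (h : DU G p p' y z w w') : w' ∉ h.R := by
  rw [mem_R]
  have e1 : G.Adj p y := (h.ap _).2 (Or.inr (Or.inl rfl))
  have e2 : G.Adj w z := (h.aw _).2 (Or.inr (Or.inl rfl))
  have e12 : G.Adj y z := (h.ay _).2 (Or.inr (Or.inl rfl))
  have e3 : G.Adj w y := (h.aw _).2 (Or.inl rfl)
  rintro (rfl | rfl | rfl | rfl)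
  · exact h.ow.2 y ⟨e3, e1⟩
  · exact h.ow.2 z ⟨e2, e12⟩
  · exact h.ow.2 y ⟨e3, e12.symm⟩
  · exact h.ow.1.ne rfl

lemma card_R (h : DU G p p' y z w w') : h.R.card = 4 := by
  unfold R
  rw [Finset.card_insert_of_notMem, Finset.card_insert_of_notMem, Finset.card_insert_of_notMem,
    Finset.card_singleton]
  · simp [h.nzw]
  · simp [h.nyz, h.nyw]
  · simp [h.npy, h.npz, h.npw]

lemma cross (h : DU G p p' y z w w') {a b : V} (ha : a ∈ h.R) (hb : b ∉ h.R)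
    (hab : G.Adj a b) : (a = p ∧ b = p') ∨ (a = w ∧ b = w') := by
  rw [mem_R] at hb
  rcases h.mem_R.1 ha with rfl | rfl | rfl | rfl
  · rcases (h.ap b).1 hab with h' | h' | h'
    · exact Or.inl ⟨rfl, h'⟩
    · exact absurd (Or.inr (Or.inl h')) hb
    · exact absurd (Or.inr (Or.inr (Or.inl h'))) hb
  · rcases (h.ay b).1 hab with h' | h' | h'
    · exact absurd (Or.inl h') hb
    · exact absurd (Or.inr (Or.inr (Or.inl h'))) hb
    · exact absurd (Or.inr (Or.inr (Or.inr h'))) hb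
  · rcases (h.az b).1 hab with h' | h' | h'
    · exact absurd (Or.inl h') hb
    · exact absurd (Or.inr (Or.inl h')) hb
    · exact absurd (Or.inr (Or.inr (Or.inr h'))) hb
  · rcases (h.aw b).1 hab with h' | h' | h'
    · exact absurd (Or.inr (Or.inl h')) hb
    · exact absurd (Or.inr (Or.inr (Or.inl h'))) hb
    · exact Or.inr ⟨rfl, h'⟩

lemma Bd_R (h : DU G p p' y z w w') {v : V} : v ∈ Bd G h.R ↔ v = p ∨ v = w := by
  rw [mem_Bd]
  constructor
  · rintro ⟨h1, u, hu, hvu⟩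
    rcases h.cross h1 hu hvu with ⟨rfl, _⟩ | ⟨rfl, _⟩
    · exact Or.inl rfl
    · exact Or.inr rfl
  · rintro (rfl | rfl)
    · exact ⟨h.mem_R.2 (Or.inl rfl), p', h.p'_notin, h.op.1⟩
    · exact ⟨h.mem_R.2 (Or.inr (Or.inr (Or.inr rfl))), w', h.w'_notin, h.ow.1⟩

lemma Cl_R (h : DU G p p' y z w w') : Cl G h.R := by
  intro u hu v huv
  by_contra hv
  obtain ⟨hadj, t, hw1, hw2⟩ := huv
  rcases h.cross hu hv hadj with ⟨rfl, rfl⟩ | ⟨rfl, rfl⟩
  · exact h.op.2 t ⟨hw1, hw2⟩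
  · exact h.ow.2 t ⟨hw1, hw2⟩

lemma sub (h : DU G p p' y z w w') {X : Finset V} (hX : Cl G X) (hp : p ∈ X) : h.R ⊆ X := by
  have e1 : G.Adj p y := (h.ap _).2 (Or.inr (Or.inl rfl))
  have e2 : G.Adj p z := (h.ap _).2 (Or.inr (Or.inr rfl))
  have e12 : G.Adj y z := (h.ay _).2 (Or.inr (Or.inl rfl))
  have e3 : G.Adj y w := (h.ay _).2 (Or.inr (Or.inr rfl))
  have e4 : G.Adj w z := (h.aw _).2 (Or.inr (Or.inl rfl))
  have hy : y ∈ X := hX p hp _ ⟨e1, z, e2, e12⟩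
  intro v hv
  rcases h.mem_R.1 hv with rfl | rfl | rfl | rfl
  · exact hp
  · exact hy
  · exact hX p hp _ ⟨e2, y, e1, e12.symm⟩
  · exact hX y hy _ ⟨e3, z, e12, e4⟩

/-- Every state function is solvable on the unit, at the tabulated cost. -/
lemma sol (h : DU G p p' y z w w') (τ : V → Fin 4) :
    ∃ S, Sol G h.R τ S ∧ 12 * (S.card : ℤ) - 5 * (h.R.card : ℤ) = D (τ p) (τ w) := by
  obtain ⟨m1, m2, m3, m4, h1, h2, h3, h4, h5, h6, h7⟩ := dia_choice (τ p) (τ w)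
  have e1 : G.Adj p y := (h.ap _).2 (Or.inr (Or.inl rfl))
  have e2 : G.Adj p z := (h.ap _).2 (Or.inr (Or.inr rfl))
  have e12 : G.Adj y z := (h.ay _).2 (Or.inr (Or.inl rfl))
  have e3 : G.Adj y w := (h.ay _).2 (Or.inr (Or.inr rfl))
  have e4 : G.Adj w z := (h.aw _).2 (Or.inr (Or.inl rfl))
  have k1 : m1 = true → p ∈ osg m1 p ∪ osg m2 y ∪ osg m3 z ∪ osg m4 w := fun hh =>
    Finset.mem_union_left _ (Finset.mem_union_left _ (Finset.mem_union_left _ (mem_osg.2 ⟨hh, rfl⟩)))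
  have k2 : m2 = true → y ∈ osg m1 p ∪ osg m2 y ∪ osg m3 z ∪ osg m4 w := fun hh =>
    Finset.mem_union_left _ (Finset.mem_union_left _ (Finset.mem_union_right _ (mem_osg.2 ⟨hh, rfl⟩)))
  have k3 : m3 = true → z ∈ osg m1 p ∪ osg m2 y ∪ osg m3 z ∪ osg m4 w := fun hh =>
    Finset.mem_union_left _ (Finset.mem_union_right _ (mem_osg.2 ⟨hh, rfl⟩))
  have k4 : m4 = true → w ∈ osg m1 p ∪ osg m2 y ∪ osg m3 z ∪ osg m4 w := fun hh =>
    Finset.mem_union_right _ (mem_osg.2 ⟨hh, rfl⟩)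
  refine ⟨osg m1 p ∪ osg m2 y ∪ osg m3 z ∪ osg m4 w, ⟨?_, ?_, ?_, ?_⟩, ?_⟩
  · intro v hv
    simp only [Finset.mem_union, mem_osg] at hv
    rw [h.mem_R]
    rcases hv with ((hv | hv) | hv) | hv
    · exact Or.inl hv.2
    · exact Or.inr (Or.inl hv.2)
    · exact Or.inr (Or.inr (Or.inl hv.2))
    · exact Or.inr (Or.inr (Or.inr hv.2))
  · intro v hv hb
    rw [h.Bd_R] at hb
    rcases h.mem_R.1 hv with rfl | rfl | rfl | rfl
    · exact absurd (Or.inl rfl) hb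
    · rcases h5 with hh | hh | hh
      · exact ⟨p, k1 hh, e1.symm⟩
      · exact ⟨z, k3 hh, e12⟩
      · exact ⟨w, k4 hh, e3⟩
    · rcases h6 with hh | hh | hh
      · exact ⟨p, k1 hh, e2.symm⟩
      · exact ⟨y, k2 hh, e12.symm⟩
      · exact ⟨w, k4 hh, e4.symm⟩
    · exact absurd (Or.inr rfl) hb
  · intro v hv hm
    rw [h.Bd_R] at hv
    rcases hv with rfl | rfl
    · exact k1 (h1 hm)
    · exact k4 (h2 hm)
  · intro v hv hm
    rw [h.Bd_R] at hv
    rcases hv with rfl | rfl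
    · rcases h3 hm with hh | hh
      · exact ⟨y, k2 hh, e1⟩
      · exact ⟨z, k3 hh, e2⟩
    · rcases h4 hm with hh | hh
      · exact ⟨y, k2 hh, e3.symm⟩
      · exact ⟨z, k3 hh, e4⟩
  · have hc : (osg m1 p ∪ osg m2 y ∪ osg m3 z ∪ osg m4 w).card = dc (τ p) (τ w) := by
      rw [Finset.card_union_of_disjoint, Finset.card_union_of_disjoint,
        Finset.card_union_of_disjoint, card_osg, card_osg, card_osg, card_osg, h7]
      · rw [Finset.disjoint_left]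
        intro a ha hb
        rw [mem_osg] at ha hb
        exact h.npy (ha.2.symm.trans hb.2)
      · rw [Finset.disjoint_left]
        intro a ha hb
        rw [Finset.mem_union, mem_osg, mem_osg] at ha
        rw [mem_osg] at hb
        rcases ha with ha | ha
        · exact h.npz (ha.2.symm.trans hb.2)
        · exact h.nyz (ha.2.symm.trans hb.2)
      · rw [Finset.disjoint_left]
        intro a ha hb
        rw [Finset.mem_union, Finset.mem_union, mem_osg, mem_osg, mem_osg] at ha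
        rw [mem_osg] at hb
        rcases ha with (ha | ha) | ha
        · exact h.npw (ha.2.symm.trans hb.2)
        · exact h.nyw (ha.2.symm.trans hb.2)
        · exact h.nzw (ha.2.symm.trans hb.2)
    rw [hc, h.card_R]
    unfold D
    norm_num

end DU

end Pool.Agent.Helper850.CF
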