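import Pool.Agent.Helper850.CF.FailT

set_option autoImplicit false
set_option linter.unusedSectionVars false

open Finset

namespace Pool.Agent.Helper850.CF

variable {V : Type} [Fintype V] [DecidableEq V] {G : SimpleGraph V}

lemma not_Cn {X : Finset V} (h : ¬ Cn G X) : ∃ C ⊆ X, C.Nonempty ∧ AC G X C ∧ (X \ C).Nonempty := by
  unfold Cn at h
  push Not at h
  obtain ⟨C, h1, h2, h3, h4⟩ := h
  refine ⟨C, h1, h2, h3, ?_⟩
  rw [Finset.nonempty_iff_ne_empty]
  intro he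
  exact h4 (Finset.Subset.antisymm h1 (Finset.sdiff_eq_empty_iff_subset.1 he))

namespace Ctx

variable {X : Finset V} {p p' q1 q2 x1 x2 : V} (c : Ctx G X p p' q1 q2 x1 x2)

include c

lemma failT (κ : V → Fin 6) (hcn' : Cn G (X \ c.h.R)) (hcon : ¬ Concl G X p κ) {e : Fin 2}
    (hres : ∀ τ' S', (cst G (X \ c.h.R) {x1, x2} κ τ' S' + ((e : ℕ) : ℤ)) % 12 = 0)
    (hN : ∀ τ' S', Sol G (X \ c.h.R) τ' S' →
        LM (τ' x1) (τ' x2) ≤ cst G (X \ c.h.R) {x1, x2} κ τ' S')
    {u1 u2 v1 v2 : V} (k : TU G x1 q1 u1 u2 v1 v2) : False := by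
  have hY : k.R ⊆ X \ c.h.R := c.tY k
  have x1Y : x1 ∈ k.R := k.mem_R.2 (Or.inl rfl)
  have q2Y : q2 ∉ k.R := fun h => c.q2n (hY h)
  by_cases hx2Y : x2 ∈ k.R
  · rcases k.cross hx2Y q2Y c.h.o2.1.symm with ⟨h1, _⟩ | ⟨h1, _⟩ | ⟨h1, _⟩
    · exact c.x12 h1.symm
    · exact c.failT_same κ hcn' hcon k h1
    · exact c.failT_same κ hcn' hcon k.symm' h1
  · have hx2'' : x2 ∈ (X \ c.h.R) \ k.R := Finset.mem_sdiff.2 ⟨c.x2m, hx2Y⟩
    have hmeet : ∀ C ⊆ (X \ c.h.R) \ k.R, C.Nonempty → AC G ((X \ c.h.R) \ k.R) C →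
        v1 ∈ C ∨ v2 ∈ C := by
      intro C hC hCn hAC
      obtain ⟨a, ha, r, hr, har⟩ := meet hcn' hY ⟨x1, x1Y⟩ hC hCn hAC
      obtain ⟨ha1, ha2⟩ := Finset.mem_sdiff.1 (hC ha)
      rcases k.cross hr ha2 har.symm with ⟨_, h2⟩ | ⟨_, h2⟩ | ⟨_, h2⟩
      · exact absurd h2 (ne_of_mem_of_not_mem ha1 c.q1n)
      · left; rw [h2] at ha; exact ha
      · right; rw [h2] at ha; exact ha
    have hx2s : x2 ∉ k.symm'.R := by rw [k.R_symm]; exact hx2Y
    by_cases a1 : v1 ∈ (X \ c.h.R) \ k.R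
    · by_cases a2 : v2 ∈ (X \ c.h.R) \ k.R
      · by_cases hcn'' : Cn G ((X \ c.h.R) \ k.R)
        · exact c.failT_conn κ hres hN k hx2Y a1 a2 hcn''
        · obtain ⟨C, hC, hCn, hAC, hCn'⟩ := not_Cn hcn''
          have h1 := hmeet C hC hCn hAC
          have h2 := hmeet _ Finset.sdiff_subset hCn' hAC.compl
          have key : ∀ C ⊆ (X \ c.h.R) \ k.R, C.Nonempty → AC G ((X \ c.h.R) \ k.R) C →
              x2 ∉ C → ¬ (v1 ∈ C ∧ v2 ∈ C) → False := by
            intro C0 g1 g2 g3 g4 g5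
            rcases hmeet C0 g1 g2 g3 with h | h
            · exact c.failT_disc κ hcon k g1 g3 g4 h (fun h' => g5 ⟨h, h'⟩)
            · exact c.failT_disc κ hcon k.symm' (by rw [k.R_symm]; exact g1)
                (by rw [k.R_symm]; exact g3) g4 h (fun h' => g5 ⟨h', h⟩)
          by_cases hx : x2 ∈ C
          · refine key _ Finset.sdiff_subset hCn' hAC.compl
              (fun h => (Finset.mem_sdiff.1 h).2 hx) ?_
            rintro ⟨g1, g2⟩
            rcases h1 with h | h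
            · exact (Finset.mem_sdiff.1 g1).2 h
            · exact (Finset.mem_sdiff.1 g2).2 h
          · refine key C hC hCn hAC hx ?_
            rintro ⟨g1, g2⟩
            rcases h2 with h | h
            · exact (Finset.mem_sdiff.1 h).2 g1
            · exact (Finset.mem_sdiff.1 h).2 g2
      · exact c.failT_one κ hcn' hres hN k.symm' hx2s (by rw [k.R_symm]; exact a2)
          (by rw [k.R_symm]; exact a1)
    · by_cases a2 : v2 ∈ (X \ c.h.R) \ k.R
      · exact c.failT_one κ hcn' hres hN k hx2Y a1 a2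
      · rcases hmeet _ (Finset.Subset.refl _) ⟨x2, hx2''⟩ (fun u _ v hv _ => hv) with h | h
        · exact a1 h
        · exact a2 h

lemma concl (κ : V → Fin 6) : Concl G X p κ := by
  by_cases hcn' : Cn G (X \ c.h.R)
  · by_contra hcon
    obtain ⟨e, hres, hN⟩ := c.dich κ hcn' hcon
    rcases unit_structure c.hc c.hf c.h.o1.symm with ⟨u1, u2, v1, v2, k⟩ | ⟨y, z, w, w', k⟩
    · exact c.failT κ hcn' hcon hres hN k
    · exact c.failD κ hcn' hcon hres hN k
  · obtain ⟨C, hC, hCn, hAC, hCn'⟩ := not_Cn hcn'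
    have hmeet : ∀ C ⊆ X \ c.h.R, C.Nonempty → AC G (X \ c.h.R) C → x1 ∈ C ∨ x2 ∈ C := by
      intro C hC hCn hAC
      obtain ⟨a, ha, r, hr, har⟩ := meet c.hcn c.RX ⟨p, c.pR⟩ hC hCn hAC
      obtain ⟨ha1, ha2⟩ := Finset.mem_sdiff.1 (hC ha)
      rcases c.h.cross hr ha2 har.symm with ⟨_, h2⟩ | ⟨_, h2⟩ | ⟨_, h2⟩
      · exact absurd h2 (ne_of_mem_of_not_mem ha1 c.hp')
      · left; rw [h2] at ha; exact ha
      · right; rw [h2] at ha; exact ha
    have h1 := hmeet C hC hCn hAC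
    have h2 := hmeet _ Finset.sdiff_subset hCn' hAC.compl
    rcases h1 with h | h
    · have hx2 : x2 ∉ C := by
        rcases h2 with h' | h'
        · exact absurd h (Finset.mem_sdiff.1 h').2
        · exact (Finset.mem_sdiff.1 h').2
      exact stepT_two_disc c.hc c.hf c.ih c.hX c.hcn c.hp c.hp' κ c.h hC hAC h hx2
    · have hx1 : x1 ∉ C := by
        rcases h2 with h' | h'
        · exact (Finset.mem_sdiff.1 h').2
        · exact absurd h (Finset.mem_sdiff.1 h').2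
      exact stepT_two_disc c.hc c.hf c.ih c.hX c.hcn c.hp c.hp' κ c.h.symm'
        (by rw [c.h.R_symm]; exact hC) (by rw [c.h.R_symm]; exact hAC) h hx1

end Ctx

theorem P_all (hc : Cub G) (hf : Clf G) : ∀ (n : ℕ) (X : Finset V), X.card = n → P G X := by
  intro n
  induction n using Nat.strong_induction_on with
  | _ n IH =>
    intro X hXn hX hcn p hp κ
    have ih : ∀ Y : Finset V, Y.card < X.card → P G Y := fun Y hY => IH _ (hXn ▸ hY) Y rfl
    obtain ⟨hpX, p', hp', hpp'⟩ := mem_Bd.1 hp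
    have hout := out_of_cross hX hpX hp' hpp'
    rcases unit_structure hc hf hout with ⟨q1, q2, x1, x2, h⟩ | ⟨y, z, w, w', h⟩
    · by_cases h1 : x1 ∈ X
      · by_cases h2 : x2 ∈ X
        · exact (Ctx.mk hc hf ih hX hcn hp hp' h h1 h2).concl κ
        · exact stepT_one hc hf ih hX hcn hp hp' κ h h1 h2
      · by_cases h2 : x2 ∈ X
        · exact stepT_one hc hf ih hX hcn hp hp' κ h.symm' h2 h1
        · exact stepT_zero hX hcn hp hp' κ h h1 h2
    · exact stepD hc hf ih hX hcn hp hp' κ h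

end Pool.Agent.Helper850.CF
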