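import Mathlib

set_option autoImplicit false

/-!
Numerical part of the proof that `12 γ_t ≤ 5 n + C` for connected claw-free cubic graphs.

A port of a piece of the graph is in one of four states: a pair (member promise, inside
domination promise), coded `0 = (0,0)`, `1 = (0,1)`, `2 = (1,0)`, `3 = (1,1)`.
-/

namespace Pool.Agent.Helper850.CF

/-- The vertex is promised to be in the set. -/
def mb : Fin 4 → Bool
  | 0 => false | 1 => false | 2 => true | 3 => true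

/-- The vertex is promised to be dominated from inside. -/
def dm : Fin 4 → Bool
  | 0 => false | 1 => true | 2 => false | 3 => true

/-- The weakest compatible state on the other side of a link. -/
def sw : Fin 4 → Fin 4
  | 0 => 3 | 1 => 1 | 2 => 2 | 3 => 0

lemma sw_sw : ∀ s, sw (sw s) = s := by decide
lemma mb_sw : ∀ s, mb (sw s) = !dm s := by decide
lemma dm_sw : ∀ s, dm (sw s) = !mb s := by decide

/-- The six boundary vectors. -/
def W : Fin 6 → Fin 4 → ℤ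
  | 0, 0 => 1 | 0, 1 => 1 | 0, 2 => 1 | 0, 3 => 13
  | 1, 0 => -1 | 1, 1 => -1 | 1, 2 => 11 | 1, 3 => 11
  | 2, 0 => -9 | 2, 1 => 3 | 2, 2 => 3 | 2, 3 => 15
  | 3, 0 => 3 | 3, 1 => 3 | 3, 2 => 3 | 3, 3 => 3
  | 4, 0 => -7 | 4, 1 => 5 | 4, 2 => 5 | 4, 3 => 5
  | 5, 0 => -5 | 5, 1 => 7 | 5, 2 => -5 | 5, 3 => 7

/-- The cap gadgets. -/
def Gd (i : Fin 6) (s : Fin 4) : ℤ := W i (sw s)

/-- Least number of chosen vertices of a triangle unit. -/
def tc (a b c : Fin 4) : ℕ :=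
  if 2 ≤ (mb a).toNat + (mb b).toNat + (mb c).toNat then
    (mb a).toNat + (mb b).toNat + (mb c).toNat
  else if (mb a).toNat + (mb b).toNat + (mb c).toNat = 1 then
    (if (mb a && dm a) || (mb b && dm b) || (mb c && dm c) then 2 else 1)
  else if dm a && dm b && dm c then 2 else if dm a || dm b || dm c then 1 else 0

/-- Excess of a triangle unit. -/
def T (a b c : Fin 4) : ℤ := 12 * (tc a b c : ℤ) - 15

/-- Least number of chosen vertices of a diamond unit. -/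
def dc : Fin 4 → Fin 4 → ℕ
  | 0, 0 => 1 | 0, 1 => 2 | 0, 2 => 1 | 0, 3 => 2
  | 1, 0 => 2 | 1, 1 => 2 | 1, 2 => 2 | 1, 3 => 2
  | 2, 0 => 1 | 2, 1 => 2 | 2, 2 => 2 | 2, 3 => 3
  | 3, 0 => 2 | 3, 1 => 2 | 3, 2 => 3 | 3, 3 => 3

/-- Excess of a diamond unit. -/
def D (a b : Fin 4) : ℤ := 12 * (dc a b : ℤ) - 20

/-- Round up to the residue class of `r` modulo `12`. -/
def ru (r x : ℤ) : ℤ := x + (r - x) % 12

lemma le_of_ru {r x c : ℤ} (h1 : x ≤ c) (h2 : (c - r) % 12 = 0) : ru r x ≤ c := by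
  unfold ru; omega

/-! ### Finite checks -/

lemma W_res : ∀ (i : Fin 6) (s : Fin 4), (W i s - W i 0) % 12 = 0 := by decide
lemma Gd_res : ∀ (i : Fin 6) (s : Fin 4), (Gd i s - Gd i 0) % 12 = 0 := by decide

lemma c1 : ∀ i j : Fin 6, ∃ l : Fin 6, ∀ u : Fin 4, ∃ s t : Fin 4,
    T s t u + Gd i s + Gd j t ≤ W l u := by decide +kernel

lemma c2 : ∀ i : Fin 6, ∃ l : Fin 6, ∀ u : Fin 4, ∃ s : Fin 4, D u s + Gd i s ≤ W l u := by
  decide +kernel

/-- The pair of vectors to be violated for residue `r`. -/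
def ka : Fin 12 → Fin 6
  | 0 => 1 | 1 => 1 | 2 => 1 | 3 => 0 | 4 => 0 | 5 => 2 | 6 => 2 | 7 => 4 | 8 => 4
  | 9 => 1 | 10 => 1 | 11 => 1

def kb : Fin 12 → Fin 6
  | 0 => 1 | 1 => 1 | 2 => 1 | 3 => 0 | 4 => 0 | 5 => 3 | 6 => 3 | 7 => 4 | 8 => 4
  | 9 => 5 | 10 => 5 | 11 => 1

/-- Lower bound for the two-port function. -/
def LB (r : Fin 12) (ua ub : Fin 4) (s t : Fin 4) : ℤ :=
  max (ru r (W (ka r) ua + 1 - T (sw s) (sw t) ua)) (ru r (W (kb r) ub + 1 - T (sw s) (sw t) ub))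

lemma c3 : ∀ (r : Fin 12) (ua ub : Fin 4), ((r = 0 ∨ r = 11) ∧ (ua = 1 ∨ ub = 1)) ∨
    ∃ i : Fin 6, ∀ j : Fin 6, ∃ t : Fin 4, ∀ s : Fin 4, W j t < Gd i s + LB r ua ub s t := by
  decide +kernel

lemma c4D : ∀ u : Fin 4, ∃ s t : Fin 4, T (sw s) (sw t) u + D s t ≤ W 0 u := by decide +kernel

lemma c4T : ∀ i : Fin 6, ∃ l : Fin 6, ∀ u : Fin 4, ∃ s t v : Fin 4,
    T (sw s) (sw t) u + T s t v + Gd i v ≤ W l u := by decide +kernel

/-- Lower bound for `M` in the failing pattern. -/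
def LM (s t : Fin 4) : ℤ := 0 - T (sw s) (sw t) 1

def mx (f : Fin 4 → ℤ) : ℤ := max (max (f 0) (f 1)) (max (f 2) (f 3))

lemma c5 : ∀ (e : Fin 2) (j : Fin 6), ∃ a : Fin 4, ∀ t : Fin 4,
    W j a < Gd 0 t + ru (20 - e) (mx fun s => LM s t - D s (sw a)) := by decide +kernel

lemma c6 : ∀ (e : Fin 2) (i j : Fin 6), ∃ a : Fin 4, ∀ t : Fin 4,
    W j a < Gd 0 t + ru (15 - e - Gd i 0) (mx fun s => mx fun v => LM s t - T s v (sw a) - Gd i v) := by
  decide +kernel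

lemma c7 : ∀ (e : Fin 2) (j : Fin 6), ∃ a : Fin 4, ∀ b t : Fin 4,
    W j a < Gd 1 b + Gd 0 t + ru (15 - e) (mx fun s => LM s t - T s (sw a) (sw b)) := by
  decide +kernel

end Pool.Agent.Helper850.CF
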