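import Pool.Agent.Helper850.CF.Bridge

set_option autoImplicit false
set_option linter.unusedSectionVars false

open Finset

namespace Pool.Agent.Helper850.CF

variable {V : Type} [Fintype V] [DecidableEq V] {G : SimpleGraph V}

lemma cst_insert {X O S : Finset V} {κ : V → Fin 6} {τ : V → Fin 4} {x : V}
    (hx : x ∈ Bd G X) (hxO : x ∉ O) :
    cst G X O κ τ S = cst G X (insert x O) κ τ S + Gd (κ x) (τ x) := by
  have := cst_upd (G := G) (S := S) (κ := κ) (τ := τ) (κ x) hx hxO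
  rwa [Function.update_eq_self] at this

lemma cst_full {X O S : Finset V} {κ : V → Fin 6} {τ : V → Fin 4} (h : Bd G X ⊆ O) :
    cst G X O κ τ S = 12 * (S.card : ℤ) - 5 * (X.card : ℤ) := by
  unfold cst
  rw [Finset.sdiff_eq_empty_iff_subset.2 h, Finset.sum_empty, add_zero]

/-- The conclusion of the induction step. -/
def Concl (G : SimpleGraph V) (X : Finset V) (p : V) (κ : V → Fin 6) : Prop :=
  ∃ j : Fin 6, ∀ s : Fin 4, ∃ (τ : V → Fin 4) (S : Finset V),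
      Sol G X τ S ∧ τ p = s ∧ cst G X {p} κ τ S ≤ W j s

lemma TU.symm' {p p' q1 q2 x1 x2 : V} (h : TU G p p' q1 q2 x1 x2) : TU G p p' q2 q1 x2 x1 where
  ap := fun u => by rw [h.ap]; tauto
  a1 := h.a2
  a2 := h.a1
  np1 := h.np2
  np2 := h.np1
  n12 := h.n12.symm
  op := h.op
  o1 := h.o2
  o2 := h.o1

lemma TU.R_symm {p p' q1 q2 x1 x2 : V} (h : TU G p p' q1 q2 x1 x2) : h.symm'.R = h.R := by
  ext v
  rw [TU.mem_R, TU.mem_R]
  tauto

section stepD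

variable {X : Finset V} {p p' y z w w' : V}

lemma stepD (hc : Cub G) (hf : Clf G) (ih : ∀ Y : Finset V, Y.card < X.card → P G Y)
    (hX : Cl G X) (hcn : Cn G X) (hp : p ∈ Bd G X) (hp' : p' ∉ X) (κ : V → Fin 6)
    (h : DU G p p' y z w w') : Concl G X p κ := by
  have hpX : p ∈ X := Bd_sub hp
  have hR : h.R ⊆ X := h.sub hX hpX
  have hpR : p ∈ h.R := h.mem_R.2 (Or.inl rfl)
  have hwR : w ∈ h.R := h.mem_R.2 (Or.inr (Or.inr (Or.inr rfl)))
  by_cases hw' : w' ∈ X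
  · refine bridge hc hf ih hX hcn hp κ (B := X \ h.R) Finset.sdiff_subset (Cl_sdiff hX h.Cl_R)
      (fun hh => (Finset.mem_sdiff.1 hh).2 hpR) (hR hwR) (fun hh => (Finset.mem_sdiff.1 hh).2 hwR)
      (Finset.mem_sdiff.2 ⟨hw', h.w'_notin⟩) h.ow.1 ?_
    intro a ha haB b hb hab
    have haR : a ∈ h.R := by
      by_contra hh
      exact haB (Finset.mem_sdiff.2 ⟨ha, hh⟩)
    obtain ⟨hbX, hbR⟩ := Finset.mem_sdiff.1 hb
    rcases h.cross haR hbR hab with ⟨_, rfl⟩ | hh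
    · exact absurd hbX hp'
    · exact hh
  · have hXR : h.R = X := by
      refine hcn _ hR ⟨p, hpR⟩ fun u hu v hv huv => ?_
      by_contra hvR
      rcases h.cross hu hvR huv with ⟨_, rfl⟩ | ⟨_, rfl⟩
      · exact hp' hv
      · exact hw' hv
    obtain ⟨l, hl⟩ := c2 (κ w)
    refine ⟨l, fun u => ?_⟩
    obtain ⟨s, hs⟩ := hl u
    have hwp : w ≠ p := h.npw.symm
    obtain ⟨S, hS1, hS2⟩ := h.sol (fun v => if v = p then u else s)
    simp only [if_pos, if_neg hwp] at hS2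
    rw [hXR] at hS1 hS2
    refine ⟨_, S, hS1, by simp, ?_⟩
    have hwB : w ∈ Bd G X := by
      rw [← hXR]; exact h.Bd_R.2 (Or.inr rfl)
    rw [cst_insert hwB (by simpa using hwp), cst_full, hS2]
    · simp only [if_neg hwp]
      exact hs
    · intro v hv
      rw [← hXR] at hv
      rcases h.Bd_R.1 hv with rfl | rfl <;> simp

end stepD

section stepT

variable {X : Finset V} {p p' q1 q2 x1 x2 : V}

/-- Only one link. -/
lemma stepT_one (hc : Cub G) (hf : Clf G) (ih : ∀ Y : Finset V, Y.card < X.card → P G Y)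
    (hX : Cl G X) (hcn : Cn G X) (hp : p ∈ Bd G X) (hp' : p' ∉ X) (κ : V → Fin 6)
    (h : TU G p p' q1 q2 x1 x2) (hx1 : x1 ∈ X) (hx2 : x2 ∉ X) : Concl G X p κ := by
  have hpX : p ∈ X := Bd_sub hp
  have hR : h.R ⊆ X := h.sub hX hpX
  have hpR : p ∈ h.R := h.mem_R.2 (Or.inl rfl)
  have hwR : q1 ∈ h.R := h.mem_R.2 (Or.inr (Or.inl rfl))
  refine bridge hc hf ih hX hcn hp κ (B := X \ h.R) Finset.sdiff_subset (Cl_sdiff hX h.Cl_R)
      (fun hh => (Finset.mem_sdiff.1 hh).2 hpR) (hR hwR) (fun hh => (Finset.mem_sdiff.1 hh).2 hwR)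
      (Finset.mem_sdiff.2 ⟨hx1, h.x1_notin⟩) h.o1.1 ?_
  intro a ha haB b hb hab
  have haR : a ∈ h.R := by
    by_contra hh
    exact haB (Finset.mem_sdiff.2 ⟨ha, hh⟩)
  obtain ⟨hbX, hbR⟩ := Finset.mem_sdiff.1 hb
  rcases h.cross haR hbR hab with ⟨_, rfl⟩ | hh | ⟨_, rfl⟩
  · exact absurd hbX hp'
  · exact hh
  · exact absurd hbX hx2

/-- No link. -/
lemma stepT_zero (hX : Cl G X) (hcn : Cn G X) (hp : p ∈ Bd G X) (hp' : p' ∉ X) (κ : V → Fin 6)
    (h : TU G p p' q1 q2 x1 x2) (hx1 : x1 ∉ X) (hx2 : x2 ∉ X) : Concl G X p κ := by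
  have hpX : p ∈ X := Bd_sub hp
  have hR : h.R ⊆ X := h.sub hX hpX
  have hpR : p ∈ h.R := h.mem_R.2 (Or.inl rfl)
  have hXR : h.R = X := by
    refine hcn _ hR ⟨p, hpR⟩ fun u hu v hv huv => ?_
    by_contra hvR
    rcases h.cross hu hvR huv with ⟨_, rfl⟩ | ⟨_, rfl⟩ | ⟨_, rfl⟩
    · exact hp' hv
    · exact hx1 hv
    · exact hx2 hv
  obtain ⟨l, hl⟩ := c1 (κ q1) (κ q2)
  refine ⟨l, fun u => ?_⟩
  obtain ⟨s, t, hst⟩ := hl u
  have h1 : q1 ≠ p := h.np1.symm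
  have h2 : q2 ≠ p := h.np2.symm
  have h3 : q2 ≠ q1 := h.n12.symm
  obtain ⟨S, hS1, hS2⟩ := h.sol (fun v => if v = p then u else if v = q1 then s else t)
  simp only [if_pos, if_neg h1, if_neg h2, if_neg h3] at hS2
  rw [hXR] at hS1 hS2
  refine ⟨_, S, hS1, by simp, ?_⟩
  have hB : Bd G X = h.R := by rw [← hXR]; exact h.Bd_R
  have hq1B : q1 ∈ Bd G X := by rw [hB]; exact h.mem_R.2 (Or.inr (Or.inl rfl))
  have hq2B : q2 ∈ Bd G X := by rw [hB]; exact h.mem_R.2 (Or.inr (Or.inr rfl))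
  rw [cst_insert hq1B (by simpa using h1), cst_insert hq2B (by simp [h2, h3]), cst_full, hS2]
  · simp only [if_pos, if_neg h1, if_neg h2, if_neg h3]
    linarith
  · intro v hv
    rw [hB] at hv
    rcases h.mem_R.1 hv with rfl | rfl | rfl <;> simp

/-- Two links, disconnected. -/
lemma stepT_two_disc (hc : Cub G) (hf : Clf G) (ih : ∀ Y : Finset V, Y.card < X.card → P G Y)
    (hX : Cl G X) (hcn : Cn G X) (hp : p ∈ Bd G X) (hp' : p' ∉ X) (κ : V → Fin 6)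
    (h : TU G p p' q1 q2 x1 x2) {C : Finset V} (hC : C ⊆ X \ h.R)
    (hAC : AC G (X \ h.R) C) (h1 : x1 ∈ C) (h2 : x2 ∉ C) : Concl G X p κ := by
  have hpX : p ∈ X := Bd_sub hp
  have hR : h.R ⊆ X := h.sub hX hpX
  have hpR : p ∈ h.R := h.mem_R.2 (Or.inl rfl)
  have hwR : q1 ∈ h.R := h.mem_R.2 (Or.inr (Or.inl rfl))
  refine bridge hc hf ih hX hcn hp κ (B := C) (hC.trans Finset.sdiff_subset)
      (Cl_of_AC (Cl_sdiff hX h.Cl_R) hAC hC)
      (fun hh => (Finset.mem_sdiff.1 (hC hh)).2 hpR) (hR hwR)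
      (fun hh => (Finset.mem_sdiff.1 (hC hh)).2 hwR) h1 h.o1.1 ?_
  intro a ha haB b hb hab
  have haR : a ∈ h.R := by
    by_contra hh
    exact haB (hAC b hb a (Finset.mem_sdiff.2 ⟨ha, hh⟩) hab.symm)
  obtain ⟨hbX, hbR⟩ := Finset.mem_sdiff.1 (hC hb)
  rcases h.cross haR hbR hab with ⟨_, rfl⟩ | hh | ⟨_, rfl⟩
  · exact absurd hbX hp'
  · exact hh
  · exact absurd hb h2

end stepT

end Pool.Agent.Helper850.CF
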