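import Pool.Agent.Helper850.CF.Step

set_option autoImplicit false
set_option linter.unusedSectionVars false

open Finset

namespace Pool.Agent.Helper850.CF

variable {V : Type} [Fintype V] [DecidableEq V] {G : SimpleGraph V}

/-- Data of a root triangle with both other ports linked inside `X`. -/
structure Ctx (G : SimpleGraph V) (X : Finset V) (p p' q1 q2 x1 x2 : V) : Prop where
  hc : Cub G
  hf : Clf G
  ih : ∀ Y : Finset V, Y.card < X.card → P G Y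
  hX : Cl G X
  hcn : Cn G X
  hp : p ∈ Bd G X
  hp' : p' ∉ X
  h : TU G p p' q1 q2 x1 x2
  h1 : x1 ∈ X
  h2 : x2 ∈ X

namespace Ctx

variable {X : Finset V} {p p' q1 q2 x1 x2 : V} (c : Ctx G X p p' q1 q2 x1 x2)

include c

lemma pR : p ∈ c.h.R := c.h.mem_R.2 (Or.inl rfl)
lemma q1R : q1 ∈ c.h.R := c.h.mem_R.2 (Or.inr (Or.inl rfl))
lemma q2R : q2 ∈ c.h.R := c.h.mem_R.2 (Or.inr (Or.inr rfl))
lemma RX : c.h.R ⊆ X := c.h.sub c.hX (Bd_sub c.hp)

lemma x12 : x1 ≠ x2 := by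
  rintro rfl
  exact c.h.n12 (out_unique c.hc c.hf c.h.o1.symm c.h.o2.symm)

lemma x1m : x1 ∈ X \ c.h.R := Finset.mem_sdiff.2 ⟨c.h1, c.h.x1_notin⟩
lemma x2m : x2 ∈ X \ c.h.R := Finset.mem_sdiff.2 ⟨c.h2, c.h.x2_notin⟩
lemma q1n : q1 ∉ X \ c.h.R := fun h => (Finset.mem_sdiff.1 h).2 c.q1R
lemma q2n : q2 ∉ X \ c.h.R := fun h => (Finset.mem_sdiff.1 h).2 c.q2R
lemma pn : p ∉ X \ c.h.R := fun h => (Finset.mem_sdiff.1 h).2 c.pR
lemma x1B : x1 ∈ Bd G (X \ c.h.R) := mem_Bd.2 ⟨c.x1m, q1, c.q1n, c.h.o1.1.symm⟩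
lemma x2B : x2 ∈ Bd G (X \ c.h.R) := mem_Bd.2 ⟨c.x2m, q2, c.q2n, c.h.o2.1.symm⟩
lemma Cl' : Cl G (X \ c.h.R) := Cl_sdiff c.hX c.h.Cl_R
lemma card' : (X \ c.h.R).card < X.card :=
  Finset.card_lt_card ⟨Finset.sdiff_subset, fun h => c.pn (h (c.RX c.pR))⟩

/-- Extending a solution of `X ∖ R` to `X`. -/
lemma G1 (κ : V → Fin 6) {τ' : V → Fin 4} {S' : Finset V} (hs : Sol G (X \ c.h.R) τ' S')
    (u : Fin 4) : ∃ (τ : V → Fin 4) (S : Finset V), Sol G X τ S ∧ τ p = u ∧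
      cst G X {p} κ τ S = T (sw (τ' x1)) (sw (τ' x2)) u + cst G (X \ c.h.R) {x1, x2} κ τ' S' := by
  have n1 : q1 ≠ p := c.h.np1.symm
  have n2 : q2 ≠ p := c.h.np2.symm
  have n3 : q2 ≠ q1 := c.h.n12.symm
  obtain ⟨SR, hSR, hSR2⟩ := c.h.sol
    (fun v => if v = p then u else if v = q1 then sw (τ' x1) else sw (τ' x2))
  simp only [if_pos, if_neg n1, if_neg n2, if_neg n3] at hSR2
  have hd : Disjoint c.h.R (X \ c.h.R) := Finset.disjoint_sdiff
  have hun : c.h.R ∪ (X \ c.h.R) = X := Finset.union_sdiff_of_subset c.RX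
  have hsol := glue hd hSR hs (by
    intro a ha b hb hab
    obtain ⟨hbX, hbR⟩ := Finset.mem_sdiff.1 hb
    rcases c.h.cross ha hbR hab with ⟨_, rfl⟩ | ⟨rfl, rfl⟩ | ⟨rfl, rfl⟩
    · exact absurd hbX c.hp'
    · simp only [if_neg n1, if_pos]
      exact compat' _
    · simp only [if_neg n2, if_neg n3]
      exact compat' _)
  have hcst := cst_glue (G := G) (O := {p, q1, q2, x1, x2}) (κ := κ)
    (τA := fun v => if v = p then u else if v = q1 then sw (τ' x1) else sw (τ' x2)) (τB := τ')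
    hd hSR.sub hs.sub (by
    intro a ha b hb hab
    obtain ⟨hbX, hbR⟩ := Finset.mem_sdiff.1 hb
    rcases c.h.cross ha hbR hab with ⟨_, rfl⟩ | ⟨rfl, rfl⟩ | ⟨rfl, rfl⟩
    · exact absurd hbX c.hp'
    · simp
    · simp)
  rw [hun] at hsol hcst
  refine ⟨_, _, hsol, ?_, ?_⟩
  · rw [mix_left c.pR]; simp
  · have e1 : ∀ τ S, cst G X {p} κ τ S = cst G X {p, q1, q2, x1, x2} κ τ S := by
      intro τ S
      refine cst_congr_O fun v hv => ?_
      have m1 : v ≠ q1 := fun h =>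
        not_Bd_of_out c.hc c.hf c.hX (c.RX c.q1R) c.h1 c.h.o1 (h ▸ hv)
      have m2 : v ≠ q2 := fun h =>
        not_Bd_of_out c.hc c.hf c.hX (c.RX c.q2R) c.h2 c.h.o2 (h ▸ hv)
      have m3 : v ≠ x1 := fun h =>
        not_Bd_of_out c.hc c.hf c.hX c.h1 (c.RX c.q1R) c.h.o1.symm (h ▸ hv)
      have m4 : v ≠ x2 := fun h =>
        not_Bd_of_out c.hc c.hf c.hX c.h2 (c.RX c.q2R) c.h.o2.symm (h ▸ hv)
      simp [m1, m2, m3, m4]
    have e2 : cst G (X \ c.h.R) {p, q1, q2, x1, x2} κ τ' S' =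
        cst G (X \ c.h.R) {x1, x2} κ τ' S' := by
      refine cst_congr_O fun v hv => ?_
      have hvR := (Finset.mem_sdiff.1 (Bd_sub hv)).2
      have m1 : v ≠ p := fun h => hvR (h ▸ c.pR)
      have m2 : v ≠ q1 := fun h => hvR (h ▸ c.q1R)
      have m3 : v ≠ q2 := fun h => hvR (h ▸ c.q2R)
      simp [m1, m2, m3]
    have e3 : ∀ τ, cst G c.h.R {p, q1, q2, x1, x2} κ τ SR =
        12 * (SR.card : ℤ) - 5 * (c.h.R.card : ℤ) := by
      intro τ
      refine cst_full fun v hv => ?_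
      rw [c.h.Bd_R] at hv
      rcases c.h.mem_R.1 hv with rfl | rfl | rfl <;> simp
    rw [e1, hcst, e2, e3, hSR2]

lemma low (κ : V → Fin 6) (hcon : ¬ Concl G X p κ) (j : Fin 6) : ∃ u : Fin 4,
    ∀ (τ' : V → Fin 4) (S' : Finset V), Sol G (X \ c.h.R) τ' S' →
      W j u < T (sw (τ' x1)) (sw (τ' x2)) u + cst G (X \ c.h.R) {x1, x2} κ τ' S' := by
  by_contra hcon2
  push Not at hcon2
  refine hcon ⟨j, fun u => ?_⟩
  obtain ⟨τ', S', h1, h2⟩ := hcon2 u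
  obtain ⟨τ, S, g1, g2, g3⟩ := c.G1 κ h1 u
  exact ⟨τ, S, g1, g2, by rw [g3]; exact h2⟩

/-- Either the conclusion holds or we are in the failing pattern. -/
lemma dich (κ : V → Fin 6) (hcn' : Cn G (X \ c.h.R)) (hcon : ¬ Concl G X p κ) :
    ∃ e : Fin 2, (∀ τ' S', (cst G (X \ c.h.R) {x1, x2} κ τ' S' + ((e : ℕ) : ℤ)) % 12 = 0) ∧
      ∀ τ' S', Sol G (X \ c.h.R) τ' S' →
        LM (τ' x1) (τ' x2) ≤ cst G (X \ c.h.R) {x1, x2} κ τ' S' := by
  obtain ⟨r, hr⟩ := cst_res (G := G) (X \ c.h.R) {x1, x2} κ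
  obtain ⟨ua, hua⟩ := c.low κ hcon (ka r)
  obtain ⟨ub, hub⟩ := c.low κ hcon (kb r)
  have hLB : ∀ τ' S', Sol G (X \ c.h.R) τ' S' →
      LB r ua ub (τ' x1) (τ' x2) ≤ cst G (X \ c.h.R) {x1, x2} κ τ' S' := by
    intro τ' S' hs
    have e1 := hua τ' S' hs
    have e2 := hub τ' S' hs
    refine max_le (le_of_ru (by linarith) (hr _ _)) (le_of_ru (by linarith) (hr _ _))
  rcases c3 r ua ub with ⟨hr0, hu⟩ | ⟨i, hi⟩
  · have hN : ∀ τ' S', Sol G (X \ c.h.R) τ' S' →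
        LM (τ' x1) (τ' x2) ≤ cst G (X \ c.h.R) {x1, x2} κ τ' S' := by
      intro τ' S' hs
      have key : W 1 1 < T (sw (τ' x1)) (sw (τ' x2)) 1 + cst G (X \ c.h.R) {x1, x2} κ τ' S' := by
        rcases hu with rfl | rfl
        · have := hua τ' S' hs
          rcases hr0 with rfl | rfl <;> exact this
        · have := hub τ' S' hs
          rcases hr0 with rfl | rfl <;> exact this
      have hW : W 1 1 = -1 := rfl
      unfold LM
      linarith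
    rcases hr0 with rfl | rfl
    · refine ⟨0, fun τ' S' => ?_, hN⟩
      have := hr τ' S'
      simpa using this
    · refine ⟨1, fun τ' S' => ?_, hN⟩
      have := hr τ' S'
      have h11 : (((11 : Fin 12) : ℕ) : ℤ) = 11 := rfl
      rw [h11] at this
      have h1 : (((1 : Fin 2) : ℕ) : ℤ) = 1 := rfl
      rw [h1]
      omega
  · exfalso
    obtain ⟨j, hj⟩ := c.ih _ c.card' c.Cl' hcn' x2 c.x2B (Function.update κ x1 i)
    obtain ⟨t, ht⟩ := hi j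
    obtain ⟨τ', S', h1, h2, h3⟩ := hj t
    rw [cst_upd i c.x1B (by simpa using c.x12)] at h3
    have e1 := ht (τ' x1)
    have e2 := hLB τ' S' h1
    rw [h2] at e2
    linarith

end Ctx

end Pool.Agent.Helper850.CF
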